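import Mathlib
import Pool.Agent.Helper941.Hyp.Sig

set_option autoImplicit false
set_option maxHeartbeats 400000

namespace Pool.Agent.Y542

open Encodable Denumerable Nat.Partrec Pool.Agent.Helper941 Pool.Agent.Helper941.IsoProb
open Pool.Agent.Helper941.Zeta Pool.Agent.Helper941.Hyp

variable {α β : Type} [Primcodable α] [Primcodable β]

/-- initial segments -/
def rs (f : ℕ → ℕ) (n : ℕ) : List ℕ := (List.range n).map f

theorem rs_length (f : ℕ → ℕ) (n : ℕ) : (rs f n).length = n := by simp [rs]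

theorem gt_rs (f : ℕ → ℕ) {n i : ℕ} (h : i < n) : gt (rs f n) i = f i := gt_range f h

theorem tk_rs (f : ℕ → ℕ) {n m : ℕ} (h : m ≤ n) : tk (rs f n) m = rs f m := tk_range f h

theorem cl_rs (f : ℕ → ℕ) {i m n : ℕ} (h : Nat.pair i m ≤ n) :
    cl (rs f n) i m = rs (fun k => f (Nat.pair i k)) m := cl_range f h

theorem tl_rs (f : ℕ → ℕ) (n : ℕ) : tl (rs f (n + 1)) n = rs (fun k => f (k + 1)) n :=
  tl_range f n

/-- `Σ¹₁` predicates with a function parameter -/
def SigF (P : α → (ℕ → ℕ) → Prop) : Prop :=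
  ∃ R : α × List ℕ × List ℕ → Prop, ComputablePred R ∧
    ∀ a f, P a f ↔ ∃ g : ℕ → ℕ, ∀ n, R (a, rs f n, rs g n)

theorem sigF_gen {P : α → (ℕ → ℕ) → Prop} {R : α × ℕ × List ℕ × List ℕ → Prop}
    (hR : ComputablePred R) {u : α × ℕ → ℕ} (hu : Computable u)
    (h : ∀ a f, P a f ↔ ∃ g : ℕ → ℕ, ∀ n, R (a, n, rs f (u (a, n)), rs g (u (a, n)))) :
    SigF P := by
  refine ⟨fun p => ∀ n < p.2.1.length, u (p.1, n) ≤ p.2.1.length →
    R (p.1, n, tk p.2.1 (u (p.1, n)), tk p.2.2 (u (p.1, n))), ?_, fun a f => ?_⟩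
  · have h1 : Computable fun q : (α × List ℕ × List ℕ) × ℕ => u (q.1.1, q.2) :=
      hu.comp (c_pair (c_fst (c_fst c_id)) (c_snd c_id))
    have h2 : Computable fun q : (α × List ℕ × List ℕ) × ℕ => q.1.2.1.length :=
      Computable.list_length.comp (c_fst (c_snd (c_fst c_id)))
    have h3 : ComputablePred fun q : (α × List ℕ × List ℕ) × ℕ =>
        R (q.1.1, q.2, tk q.1.2.1 (u (q.1.1, q.2)), tk q.1.2.2 (u (q.1.1, q.2))) :=
      computablePred_comp hR (c_pair (c_fst (c_fst c_id)) (c_pair (c_snd c_id)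
        (c_pair (c_tk (c_fst (c_snd (c_fst c_id))) h1) (c_tk (c_snd (c_snd (c_fst c_id))) h1))))
    exact p_ball (Computable.list_length.comp (c_fst (c_snd c_id))) (p_imp (p_le h1 h2) h3)
  · rw [h]
    refine exists_congr fun g => ?_
    constructor
    · intro h1 k n hn hk
      simp only [rs_length] at hn hk ⊢
      rw [tk_rs f hk, tk_rs g hk]
      exact h1 n
    · intro h1 n
      have h2 := h1 (n + 1 + u (a, n)) n (by simp only [rs_length]; omega)
        (by simp only [rs_length]; omega)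
      simp only at h2
      rw [tk_rs f (by omega), tk_rs g (by omega)] at h2
      exact h2

theorem SigF.of_iff {P Q : α → (ℕ → ℕ) → Prop} (h : SigF P) (e : ∀ a f, Q a f ↔ P a f) :
    SigF Q := by
  have : Q = P := funext fun a => funext fun f => propext (e a f)
  rw [this]; exact h

theorem SigF.comp {P : β → (ℕ → ℕ) → Prop} (h : SigF P) {t : α → β} (ht : Computable t) :
    SigF fun a => P (t a) := by
  obtain ⟨R, hR, e⟩ := h
  exact ⟨fun p => R (t p.1, p.2), computablePred_comp hR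
    (c_pair (ht.comp Computable.fst) Computable.snd), fun a => e (t a)⟩

theorem SigF.of_sigma {P : α → Prop} (h : Sigma11 P) : SigF fun a (_ : ℕ → ℕ) => P a := by
  obtain ⟨R, hR, e⟩ := h
  exact ⟨fun p => R (p.1, p.2.2), computablePred_comp hR
    (c_pair (c_fst c_id) (c_snd (c_snd c_id))), fun a f => e a⟩

/-- values of the function -/
theorem SigF.val {Q : α × ℕ → Prop} (hQ : ComputablePred Q) {u : α → ℕ} (hu : Computable u) :
    SigF fun a f => Q (a, f (u a)) := by
  refine sigF_gen (R := fun q => Q (q.1, gt q.2.2.1 (u q.1))) (u := fun p => u p.1 + 1) ?_ ?_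
    fun a f => ?_
  · exact computablePred_comp hQ (c_pair (c_fst c_id)
      (c_gt (c_fst (c_snd (c_snd c_id))) (hu.comp (c_fst c_id))))
  · exact c_succ (hu.comp (c_fst c_id))
  · constructor
    · intro h
      refine ⟨fun _ => 0, fun n => ?_⟩
      simp only
      rw [gt_rs f (by omega)]
      exact h
    · rintro ⟨g, hg⟩
      have := hg 0
      simp only at this
      rwa [gt_rs f (by omega)] at this

theorem SigF.and {P Q : α → (ℕ → ℕ) → Prop} (h : SigF P) (h' : SigF Q) :
    SigF fun a f => P a f ∧ Q a f := by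
  obtain ⟨R, hR, e⟩ := h
  obtain ⟨R', hR', e'⟩ := h'
  refine sigF_gen (R := fun q => R (q.1, tk q.2.2.1 q.2.1, cl q.2.2.2 0 q.2.1) ∧
    R' (q.1, tk q.2.2.1 q.2.1, cl q.2.2.2 1 q.2.1))
    (u := fun p => p.2 + Nat.pair 0 p.2 + Nat.pair 1 p.2) ?_ ?_ fun a f => ?_
  · have h1 : Computable fun q : α × ℕ × List ℕ × List ℕ => tk q.2.2.1 q.2.1 :=
      c_tk (c_fst (c_snd (c_snd c_id))) (c_fst (c_snd c_id))
    exact p_and (computablePred_comp hR (c_pair (c_fst c_id) (c_pair h1
      (c_cl (c_snd (c_snd (c_snd c_id))) (c_const 0) (c_fst (c_snd c_id))))))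
      (computablePred_comp hR' (c_pair (c_fst c_id) (c_pair h1
      (c_cl (c_snd (c_snd (c_snd c_id))) (c_const 1) (c_fst (c_snd c_id))))))
  · exact c_add (c_add (c_snd c_id) (c_npair (c_const 0) (c_snd c_id)))
      (c_npair (c_const 1) (c_snd c_id))
  · rw [e, e']
    constructor
    · rintro ⟨⟨g, hg⟩, ⟨h, hh⟩⟩
      refine ⟨fun x => if x.unpair.1 = 0 then g x.unpair.2 else h x.unpair.2, fun n => ?_⟩
      simp only
      rw [cl_rs _ (by omega), cl_rs _ (by omega), tk_rs _ (by omega)]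
      simp only [Nat.unpair_pair]
      exact ⟨hg n, hh n⟩
    · rintro ⟨g, hg⟩
      refine ⟨⟨fun k => g (Nat.pair 0 k), fun n => ?_⟩, ⟨fun k => g (Nat.pair 1 k), fun n => ?_⟩⟩
      · have := (hg n).1
        simp only at this
        rwa [cl_rs _ (by omega), tk_rs _ (by omega)] at this
      · have := (hg n).2
        simp only at this
        rwa [cl_rs _ (by omega), tk_rs _ (by omega)] at this

theorem SigF.all {P : α × ℕ → (ℕ → ℕ) → Prop} (h : SigF P) :
    SigF fun a f => ∀ y, P (a, y) f := by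
  obtain ⟨R, hR, e⟩ := h
  refine sigF_gen (R := fun q => R ((q.1, q.2.1.unpair.1), tk q.2.2.1 q.2.1.unpair.2,
    cl q.2.2.2 q.2.1.unpair.1 q.2.1.unpair.2)) (u := fun p => p.2) ?_ (c_snd c_id)
    fun a f => ?_
  · exact computablePred_comp hR (c_pair (c_pair (c_fst c_id) (c_up1 (c_fst (c_snd c_id))))
      (c_pair (c_tk (c_fst (c_snd (c_snd c_id))) (c_up2 (c_fst (c_snd c_id))))
      (c_cl (c_snd (c_snd (c_snd c_id))) (c_up1 (c_fst (c_snd c_id)))
        (c_up2 (c_fst (c_snd c_id))))))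
  · constructor
    · intro h1
      have h2 : ∀ y, ∃ g : ℕ → ℕ, ∀ n, R ((a, y), rs f n, rs g n) :=
        fun y => (e _ _).1 (h1 y)
      choose g hg using h2
      refine ⟨fun x => g x.unpair.1 x.unpair.2, fun n => ?_⟩
      simp only
      rw [cl_rs _ (by rw [Nat.pair_unpair]), tk_rs _ (Nat.unpair_right_le n)]
      simp only [Nat.unpair_pair]
      exact hg _ _
    · rintro ⟨g, hg⟩ y
      refine (e _ _).2 ⟨fun k => g (Nat.pair y k), fun n => ?_⟩
      have := hg (Nat.pair y n)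
      simp only [Nat.unpair_pair] at this
      rwa [cl_rs _ (le_refl _), tk_rs _ (Nat.right_le_pair y n)] at this

theorem SigF.ex {P : α × ℕ → (ℕ → ℕ) → Prop} (h : SigF P) :
    SigF fun a f => ∃ y, P (a, y) f := by
  obtain ⟨R, hR, e⟩ := h
  refine sigF_gen (R := fun q => R ((q.1, gt q.2.2.2 0), tk q.2.2.1 q.2.1, tl q.2.2.2 q.2.1))
    (u := fun p => p.2 + 1) ?_ (c_succ (c_snd c_id)) fun a f => ?_
  · exact computablePred_comp hR (c_pair (c_pair (c_fst c_id) (c_gt (c_snd (c_snd (c_snd c_id)))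
      (c_const 0))) (c_pair (c_tk (c_fst (c_snd (c_snd c_id))) (c_fst (c_snd c_id)))
      (c_tl (c_snd (c_snd (c_snd c_id))) (c_fst (c_snd c_id)))))
  · constructor
    · rintro ⟨y, hy⟩
      obtain ⟨g, hg⟩ := (e _ _).1 hy
      refine ⟨fun x => Nat.casesOn x y g, fun n => ?_⟩
      simp only
      rw [gt_rs _ (by omega), tl_rs, tk_rs _ (by omega)]
      exact hg n
    · rintro ⟨g, hg⟩
      refine ⟨g 0, (e _ _).2 ⟨fun k => g (k + 1), fun n => ?_⟩⟩
      have := hg n
      simp only at this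
      rwa [gt_rs _ (by omega), tl_rs, tk_rs _ (by omega)] at this

theorem SigF.or {P Q : α → (ℕ → ℕ) → Prop} (h : SigF P) (h' : SigF Q) :
    SigF fun a f => P a f ∨ Q a f := by
  obtain ⟨R, hR, e⟩ := h
  obtain ⟨R', hR', e'⟩ := h'
  have h1 : SigF fun (p : α × ℕ) f => (p.2 = 0 → P p.1 f) ∧ (¬ p.2 = 0 → Q p.1 f) := by
    refine ⟨fun q => (q.1.2 = 0 → R (q.1.1, q.2)) ∧ (¬ q.1.2 = 0 → R' (q.1.1, q.2)), ?_,
      fun a f => ?_⟩
    · have h3 : ComputablePred fun q : (α × ℕ) × List ℕ × List ℕ => q.1.2 = 0 :=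
        p_eq (c_snd (c_fst c_id)) (c_const 0)
      exact p_and (p_imp h3 (computablePred_comp hR (c_pair (c_fst (c_fst c_id)) (c_snd c_id))))
        (p_imp (p_not h3) (computablePred_comp hR' (c_pair (c_fst (c_fst c_id)) (c_snd c_id))))
    · obtain ⟨a, y⟩ := a
      simp only
      rw [e, e']
      by_cases hy : y = 0
      · simp [hy]
      · simp [hy]
  refine (SigF.ex h1).of_iff fun a f => ?_
  constructor
  · rintro (h2 | h2)
    · exact ⟨0, fun _ => h2, fun h => (h rfl).elim⟩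
    · exact ⟨1, fun h => absurd h (by simp), fun _ => h2⟩
  · rintro ⟨y, h2, h3⟩
    by_cases hy : y = 0
    · exact Or.inl (h2 hy)
    · exact Or.inr (h3 hy)

/-- quantification over a function -/
theorem SigF.fn {P : α → (ℕ → ℕ) → Prop} (h : SigF P) : Sigma11 fun a => ∃ f, P a f := by
  obtain ⟨R, hR, e⟩ := h
  refine sigma11_gen (R := fun q => R (q.1, cl q.2.2 0 q.2.1, cl q.2.2 1 q.2.1))
    (u := fun p => Nat.pair 0 p.2 + Nat.pair 1 p.2) ?_ ?_ fun a => ?_
  · exact computablePred_comp hR (c_pair (c_fst c_id) (c_pair (c_cl (c_snd (c_snd c_id))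
      (c_const 0) (c_fst (c_snd c_id))) (c_cl (c_snd (c_snd c_id))
      (c_const 1) (c_fst (c_snd c_id)))))
  · exact c_add (c_npair (c_const 0) (c_snd c_id)) (c_npair (c_const 1) (c_snd c_id))
  · constructor
    · rintro ⟨f, hf⟩
      obtain ⟨g, hg⟩ := (e _ _).1 hf
      refine ⟨fun x => if x.unpair.1 = 0 then f x.unpair.2 else g x.unpair.2, fun n => ?_⟩
      simp only
      rw [← rs, cl_rs _ (by omega), cl_rs _ (by omega)]
      simp only [Nat.unpair_pair]
      exact hg n
    · rintro ⟨f, hf⟩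
      refine ⟨fun k => f (Nat.pair 0 k), (e _ _).2 ⟨fun k => f (Nat.pair 1 k), fun n => ?_⟩⟩
      have := hf n
      simp only at this
      rwa [← rs, cl_rs _ (by omega), cl_rs _ (by omega)] at this

/-- quantification over a function, with a remaining function parameter; `f` codes the pair
of its columns `0` and `1` -/
theorem SigF.fn2 {P : α → (ℕ → ℕ) → (ℕ → ℕ) → Prop}
    (h : SigF fun a (f : ℕ → ℕ) => P a (fun k => f (Nat.pair 0 k)) (fun k => f (Nat.pair 1 k))) :
    SigF fun a f => ∃ h, P a f h := by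
  obtain ⟨R, hR, e⟩ := h
  -- the joined function
  refine sigF_gen (R := fun q => R (q.1, (List.range q.2.1).map (fun x =>
      if x.unpair.1 = 0 then gt q.2.2.1 x.unpair.2 else gt q.2.2.2 (Nat.pair 0 x)),
      cl q.2.2.2 1 q.2.1))
    (u := fun p => p.2 + Nat.pair 0 p.2 + Nat.pair 1 p.2) ?_ ?_ fun a f => ?_
  · have hr : Computable fun q : α × ℕ × List ℕ × List ℕ => (List.range q.2.1).map (fun x =>
        if x.unpair.1 = 0 then gt q.2.2.1 x.unpair.2 else gt q.2.2.2 (Nat.pair 0 x)) := by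
      refine c_tab (c_fst (c_snd c_id)) ?_
      refine c_ite (p_eq (c_up1 (c_snd c_id)) (c_const 0)) ?_ ?_
      · exact c_gt (c_fst (c_snd (c_snd (c_fst c_id)))) (c_up2 (c_snd c_id))
      · exact c_gt (c_snd (c_snd (c_snd (c_fst c_id)))) (c_npair (c_const 0) (c_snd c_id))
    exact computablePred_comp hR (c_pair (c_fst c_id) (c_pair hr
      (c_cl (c_snd (c_snd (c_snd c_id))) (c_const 1) (c_fst (c_snd c_id)))))
  · exact c_add (c_add (c_snd c_id) (c_npair (c_const 0) (c_snd c_id)))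
      (c_npair (c_const 1) (c_snd c_id))
  · have key : ∀ (g : ℕ → ℕ) (n : ℕ), (List.range n).map (fun x =>
        if x.unpair.1 = 0 then gt (rs f (n + Nat.pair 0 n + Nat.pair 1 n)) x.unpair.2
        else gt (rs g (n + Nat.pair 0 n + Nat.pair 1 n)) (Nat.pair 0 x)) =
        rs (fun x => if x.unpair.1 = 0 then f x.unpair.2 else g (Nat.pair 0 x)) n := by
      intro g n
      unfold rs
      refine List.map_congr_left fun x hx => ?_
      have hx' : x < n := List.mem_range.1 hx
      have h1 := Nat.unpair_right_le x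
      have h2 := Nat.pair_lt_pair_right 0 hx'
      have h3 := gt_rs f (n := n + Nat.pair 0 n + Nat.pair 1 n) (i := x.unpair.2) (by omega)
      have h4 := gt_rs g (n := n + Nat.pair 0 n + Nat.pair 1 n) (i := Nat.pair 0 x) (by omega)
      unfold rs at h3 h4
      rw [h3, h4]
    constructor
    · rintro ⟨h, hh⟩
      obtain ⟨g, hg⟩ := (e a fun x => if x.unpair.1 = 0 then f x.unpair.2 else
        h x.unpair.2).1 (by simpa [Nat.unpair_pair] using hh)
      refine ⟨fun x => if x.unpair.1 = 0 then h x.unpair.2.unpair.2 else g x.unpair.2,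
        fun n => ?_⟩
      simp only
      rw [key, cl_rs _ (by omega)]
      simp only [Nat.unpair_pair]
      exact hg n
    · rintro ⟨g, hg⟩
      refine ⟨fun k => g (Nat.pair 0 (Nat.pair 1 k)), ?_⟩
      have h1 := (e a fun x => if x.unpair.1 = 0 then f x.unpair.2 else g (Nat.pair 0 x)).2
        ⟨fun k => g (Nat.pair 1 k), fun n => ?_⟩
      · simpa [Nat.unpair_pair] using h1
      · have := hg n
        simp only at this
        rwa [key, cl_rs _ (by omega)] at this

/-! ### `Δ¹₁` predicates with a function parameter -/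

def DelF (P : α → (ℕ → ℕ) → Prop) : Prop := SigF P ∧ SigF fun a f => ¬ P a f

theorem DelF.of_iff {P Q : α → (ℕ → ℕ) → Prop} (h : DelF P) (e : ∀ a f, Q a f ↔ P a f) :
    DelF Q := by
  have : Q = P := funext fun a => funext fun f => propext (e a f)
  rw [this]; exact h

theorem DelF.comp {P : β → (ℕ → ℕ) → Prop} (h : DelF P) {t : α → β} (ht : Computable t) :
    DelF fun a => P (t a) := ⟨h.1.comp ht, h.2.comp ht⟩

theorem DelF.of_delta {P : α → Prop} (h : Delta11 P) : DelF fun a (_ : ℕ → ℕ) => P a :=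
  ⟨SigF.of_sigma h.1, SigF.of_sigma h.2⟩

theorem DelF.of_computable {P : α → Prop} (h : ComputablePred P) :
    DelF fun a (_ : ℕ → ℕ) => P a := DelF.of_delta (Delta11.of_computable h)

theorem DelF.val {Q : α × ℕ → Prop} (hQ : ComputablePred Q) {u : α → ℕ} (hu : Computable u) :
    DelF fun a f => Q (a, f (u a)) := ⟨SigF.val hQ hu, SigF.val (p_not hQ) hu⟩

theorem DelF.not {P : α → (ℕ → ℕ) → Prop} (h : DelF P) : DelF fun a f => ¬ P a f :=
  ⟨h.2, h.1.of_iff fun _ _ => not_not⟩

theorem DelF.and {P Q : α → (ℕ → ℕ) → Prop} (h : DelF P) (h' : DelF Q) :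
    DelF fun a f => P a f ∧ Q a f :=
  ⟨h.1.and h'.1, (h.2.or h'.2).of_iff fun _ _ => not_and_or⟩

theorem DelF.or {P Q : α → (ℕ → ℕ) → Prop} (h : DelF P) (h' : DelF Q) :
    DelF fun a f => P a f ∨ Q a f :=
  ⟨h.1.or h'.1, (h.2.and h'.2).of_iff fun _ _ => not_or⟩

theorem DelF.imp {P Q : α → (ℕ → ℕ) → Prop} (h : DelF P) (h' : DelF Q) :
    DelF fun a f => P a f → Q a f := (h.not.or h').of_iff fun _ _ => imp_iff_not_or

theorem DelF.iff {P Q : α → (ℕ → ℕ) → Prop} (h : DelF P) (h' : DelF Q) :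
    DelF fun a f => (P a f ↔ Q a f) := ((h.imp h').and (h'.imp h)).of_iff fun _ _ => iff_def

theorem DelF.ex {P : α × ℕ → (ℕ → ℕ) → Prop} (h : DelF P) :
    DelF fun a f => ∃ y, P (a, y) f :=
  ⟨h.1.ex, (h.2.all).of_iff fun _ _ => by push Not; rfl⟩

theorem DelF.all {P : α × ℕ → (ℕ → ℕ) → Prop} (h : DelF P) :
    DelF fun a f => ∀ y, P (a, y) f :=
  ⟨h.1.all, (h.2.ex).of_iff fun _ _ => by push Not; rfl⟩

/-- quantification over a coded type -/
theorem DelF.ex' {P : α × β → (ℕ → ℕ) → Prop} (h : DelF P) :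
    DelF fun a f => ∃ y, P (a, y) f := by
  by_cases hβ : Nonempty β
  · obtain ⟨b0⟩ := hβ
    have h1 : DelF fun (p : α × ℕ) f => (decode (α := β) p.2).isSome = true ∧
        P (p.1, (decode (α := β) p.2).getD b0) f := by
      refine (DelF.of_computable ?_).and (h.comp (t := fun p : α × ℕ =>
        (p.1, (decode (α := β) p.2).getD b0)) ?_)
      · refine ComputablePred.computable_iff.2
          ⟨fun p : α × ℕ => (decode (α := β) p.2).isSome, ?_, rfl⟩
        exact (Primrec.option_isSome.to_comp).comp (Computable.decode.comp Computable.snd)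
      · refine Computable.pair Computable.fst ?_
        exact (Primrec.option_getD.to_comp).comp (Computable.decode.comp Computable.snd)
          (Computable.const b0)
    refine h1.ex.of_iff fun a f => ?_
    constructor
    · rintro ⟨y, hy⟩
      exact ⟨encode y, by simpa using hy⟩
    · rintro ⟨k, _, hk⟩
      exact ⟨_, hk⟩
  · refine (DelF.of_computable (P := fun _ : α => False) ?_).of_iff fun a f => ?_
    · exact ComputablePred.computable_iff.2 ⟨fun _ => false, Computable.const _, by funext a; simp⟩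
    · simp only [iff_false]
      rintro ⟨y, _⟩
      exact hβ ⟨y⟩

theorem DelF.all' {P : α × β → (ℕ → ℕ) → Prop} (h : DelF P) :
    DelF fun a f => ∀ y, P (a, y) f :=
  (h.not.ex').not.of_iff fun a f => by push Not; rfl

/-- a predicate implicitly defined by a function is `Δ¹₁` -/
theorem delta_of_unique {P : α → Prop} {W : (ℕ → ℕ) → Prop}
    (hW : SigF fun (_ : ℕ) f => W f) {Q : α → (ℕ → ℕ) → Prop} (hQ : DelF Q)
    (hex : ∃ f, W f) (h : ∀ f, W f → ∀ a, (P a ↔ Q a f)) : Delta11 P := by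
  obtain ⟨f0, hf0⟩ := hex
  have hW' : SigF fun (_ : α) f => W f := hW.comp (t := fun _ : α => 0) (c_const 0)
  refine ⟨(hW'.and hQ.1).fn.of_iff fun a => ?_, (hW'.and hQ.2).fn.of_iff fun a => ?_⟩
  · constructor
    · intro h1
      exact ⟨f0, hf0, (h f0 hf0 a).1 h1⟩
    · rintro ⟨f, h1, h2⟩
      exact (h f h1 a).2 h2
  · constructor
    · intro h1
      exact ⟨f0, hf0, fun h2 => h1 ((h f0 hf0 a).2 h2)⟩
    · rintro ⟨f, h1, h2⟩ h3
      exact h2 ((h f h1 a).1 h3)

end Pool.Agent.Y542
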