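import Mathlib

set_option autoImplicit false
set_option maxHeartbeats 400000

namespace Pool.Agent.Y542

/-- the back-and-forth construction -/
theorem bf_iso {E : List (ℕ × ℕ) → Prop}
    (hinj : ∀ p, E p → ∀ x ∈ p, ∀ y ∈ p, (x.1 = y.1 ↔ x.2 = y.2))
    (hf : ∀ p, E p → ∀ c, ∃ d, E (p ++ [(c, d)]))
    (hb : ∀ p, E p → ∀ d, ∃ c, E (p ++ [(c, d)])) {p0 : List (ℕ × ℕ)} (h0 : E p0) :
    ∃ f : ℕ ≃ ℕ, (∀ x ∈ p0, f x.1 = x.2) ∧
      ∀ l : List ℕ, ∃ p, E p ∧ ∀ x ∈ l, (x, f x) ∈ p := by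
  have hstep : ∀ (n : ℕ) (p : {p // E p}), ∃ q : {p // E p}, p.1 <+: q.1 ∧
      (∃ d, (n, d) ∈ q.1) ∧ ∃ c, (c, n) ∈ q.1 := by
    rintro n ⟨p, hp⟩
    obtain ⟨d, hd⟩ := hf p hp n
    obtain ⟨c, hc⟩ := hb _ hd n
    refine ⟨⟨_, hc⟩, ?_, ⟨d, ?_⟩, ⟨c, ?_⟩⟩
    · exact (List.prefix_append _ _).trans (List.prefix_append _ _)
    · simp
    · simp
  choose st h1 h2 h3 using hstep
  let P : ℕ → {p // E p} := fun n => Nat.rec ⟨p0, h0⟩ st n
  have hP : ∀ n, P (n + 1) = st n (P n) := fun n => rfl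
  have hmono : ∀ m n, m ≤ n → (P m).1 <+: (P n).1 := by
    intro m n hmn
    induction n, hmn using Nat.le_induction with
    | base => exact List.prefix_rfl
    | succ n _ ih => exact ih.trans (by rw [hP]; exact h1 n (P n))
  have hd : ∀ n, ∃ d, (n, d) ∈ (P (n + 1)).1 := fun n => by rw [hP]; exact h2 n (P n)
  have hc : ∀ n, ∃ c, (c, n) ∈ (P (n + 1)).1 := fun n => by rw [hP]; exact h3 n (P n)
  choose f hf' using hd
  choose g hg' using hc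
  have key : ∀ m n x y, x ∈ (P m).1 → y ∈ (P n).1 → (x.1 = y.1 ↔ x.2 = y.2) := by
    intro m n x y hx hy
    exact hinj (P (max m n)).1 (P (max m n)).2 x ((hmono m _ (le_max_left _ _)).subset hx) y
      ((hmono n _ (le_max_right _ _)).subset hy)
  refine ⟨⟨f, g, fun n => ?_, fun n => ?_⟩, fun x hx => ?_, fun l => ?_⟩
  · exact ((key (f n + 1) (n + 1) (g (f n), f n) (n, f n) (hg' (f n)) (hf' n)).2 rfl)
  · exact ((key (g n + 1) (n + 1) (g n, f (g n)) (g n, n) (hf' (g n)) (hg' n)).1 rfl)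
  · exact (key (x.1 + 1) 0 (x.1, f x.1) x (hf' x.1) hx).1 rfl
  · refine ⟨(P (l.sum + 1)).1, (P (l.sum + 1)).2, fun x hx => ?_⟩
    have h4 : x ≤ l.sum := List.le_sum_of_mem hx
    exact (hmono (x + 1) (l.sum + 1) (by omega)).subset (hf' x)

end Pool.Agent.Y542
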