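import Mathlib
import Pool.Agent.Helper941.Hyp.Defs
import Pool.Agent.Y542.BFIso

set_option autoImplicit false
set_option maxHeartbeats 400000

namespace Pool.Agent.Y542

open Encodable Denumerable Pool.Agent.Helper941.Hyp

variable {ar : ℕ → ℕ}

/-- The tuples `a`, `b` (of the same length) satisfy the same atomic formulas in `A`. -/
def AtomEq (A : Struct ar) (n : ℕ) (a b : Fin n → ℕ) : Prop :=
  (∀ i j, a i = a j ↔ b i = b j) ∧
    ∀ (i : ℕ) (s : Fin (ar i) → Fin n), (A i fun k => a (s k)) ↔ (A i fun k => b (s k))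

/-- The symmetric back-and-forth relations of `A`: `a ≡_0 b` if `a`, `b` satisfy the same atomic
formulas, and `a ≡_α b` (for `α > 0`) if moreover for every `β < α` and every tuple `c` there is
a tuple `d` with `(a, c) ≡_β (b, d)`, and for every tuple `d` there is a tuple `c` with
`(a, c) ≡_β (b, d)`. -/
def BF (A : Struct ar) (α : Ordinal.{0}) (n : ℕ) (a b : Fin n → ℕ) : Prop :=
  AtomEq A n a b ∧ ∀ β < α,
    (∀ (m : ℕ) (c : Fin m → ℕ), ∃ d : Fin m → ℕ,
      BF A β (n + m) (Fin.append a c) (Fin.append b d)) ∧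
    (∀ (m : ℕ) (d : Fin m → ℕ), ∃ c : Fin m → ℕ,
      BF A β (n + m) (Fin.append a c) (Fin.append b d))
termination_by α

/-- Some automorphism of `A` maps the tuple `a` to the tuple `b`. -/
def Orbit (A : Struct ar) (n : ℕ) (a b : Fin n → ℕ) : Prop :=
  ∃ f : ℕ ≃ ℕ, (∀ i v, A i v ↔ A i fun k => f (v k)) ∧ ∀ k, f (a k) = b k

/-- The Scott rank of the tuple `a` in `A`: the least `β` such that every `b` with `a ≡_β b` is
the image of `a` under an automorphism of `A`. -/
noncomputable def tupleRank (A : Struct ar) (n : ℕ) (a : Fin n → ℕ) : Ordinal.{0} :=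
  sInf {β | ∀ b, BF A β n a b → Orbit A n a b}

/-- The Scott rank of `A`: the least ordinal greater than the Scott ranks of all tuples. -/
noncomputable def scottRank (A : Struct ar) : Ordinal.{0} :=
  sInf {α | ∀ (n : ℕ) (a : Fin n → ℕ), tupleRank A n a < α}

/-- Computable ordinals: the ordinals less than or equal to the order type of some computable
well-ordering of the natural numbers, that is, the ordinals below `ω₁^CK`. -/
def IsCompOrdinal (α : Ordinal.{0}) : Prop :=
  ∃ R : ℕ → ℕ → Prop, (ComputablePred fun p : ℕ × ℕ => R p.1 p.2) ∧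
    ∃ _ : IsWellOrder ℕ R, α ≤ Ordinal.type R

/-- `A` has noncomputable (high) Scott rank. -/
def HighRank (A : Struct ar) : Prop := ¬ IsCompOrdinal (scottRank A)

theorem bf_def (A : Struct ar) (α : Ordinal.{0}) (n : ℕ) (a b : Fin n → ℕ) :
    BF A α n a b ↔ AtomEq A n a b ∧ ∀ β < α,
    (∀ (m : ℕ) (c : Fin m → ℕ), ∃ d : Fin m → ℕ,
      BF A β (n + m) (Fin.append a c) (Fin.append b d)) ∧
    (∀ (m : ℕ) (d : Fin m → ℕ), ∃ c : Fin m → ℕ,
      BF A β (n + m) (Fin.append a c) (Fin.append b d)) := by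
  rw [BF]

theorem BF.mono {A : Struct ar} {α β : Ordinal.{0}} {n : ℕ} {a b : Fin n → ℕ}
    (h : BF A α n a b) (hb : β ≤ α) : BF A β n a b := by
  rw [bf_def] at h ⊢
  exact ⟨h.1, fun γ hγ => h.2 γ (lt_of_lt_of_le hγ hb)⟩

theorem Orbit.bf {A : Struct ar} {n : ℕ} {a b : Fin n → ℕ} (h : Orbit A n a b)
    (α : Ordinal.{0}) : BF A α n a b := by
  obtain ⟨f, hf, h1⟩ := h
  induction α using WellFoundedLT.induction generalizing n with
  | ind α ih =>
    rw [bf_def]
    refine ⟨⟨fun i j => ?_, fun i s => ?_⟩, fun β hβ => ⟨fun m c => ?_, fun m d => ?_⟩⟩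
    · rw [← h1, ← h1, f.injective.eq_iff]
    · rw [hf]
      simp only [h1]
    · refine ⟨fun k => f (c k), ih β hβ fun k => ?_⟩
      induction k using Fin.addCases with
      | left k => simp [h1]
      | right k => simp
    · refine ⟨fun k => f.symm (d k), ih β hβ fun k => ?_⟩
      induction k using Fin.addCases with
      | left k => simp [h1]
      | right k => simp

/-- a bound for the stabilisation of the back-and-forth relations -/
theorem exists_stable (A : Struct ar) : ∃ γ : Ordinal.{0}, ∀ (n : ℕ) (a b : Fin n → ℕ),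
    BF A γ n a b → ∀ α, BF A α n a b := by
  classical
  have h1 : ∀ q : (Σ n : ℕ, (Fin n → ℕ) × (Fin n → ℕ)), ∃ γ : Ordinal.{0},
      (∀ α, BF A α q.1 q.2.1 q.2.2) ∨ ¬ BF A γ q.1 q.2.1 q.2.2 := by
    intro q
    by_cases h : ∀ α, BF A α q.1 q.2.1 q.2.2
    · exact ⟨0, Or.inl h⟩
    · push Not at h
      obtain ⟨γ, hγ⟩ := h
      exact ⟨γ, Or.inr hγ⟩
  choose γ hγ using h1
  refine ⟨iSup γ, fun n a b h α => ?_⟩
  rcases hγ ⟨n, a, b⟩ with h2 | h2
  · exact h2 α
  · exact (h2 (h.mono (Ordinal.le_iSup γ ⟨n, a, b⟩))).elim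

/-- the list form of a pair of tuples -/
def prs (n : ℕ) (a b : Fin n → ℕ) : List (ℕ × ℕ) := List.ofFn fun i => (a i, b i)

theorem prs_surj (p : List (ℕ × ℕ)) : ∃ n, ∃ a b : Fin n → ℕ, prs n a b = p :=
  ⟨p.length, fun i => (p.get i).1, fun i => (p.get i).2, by unfold prs; simp⟩

theorem prs_inj {n m : ℕ} {a b : Fin n → ℕ} {c d : Fin m → ℕ} (h : prs n a b = prs m c d) :
    ∃ e : n = m, a = c ∘ Fin.cast e ∧ b = d ∘ Fin.cast e := by
  have h1 : n = m := by
    have := congrArg List.length h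
    simpa [prs] using this
  subst h1
  refine ⟨rfl, ?_⟩
  have h2 := List.ofFn_injective h
  constructor
  · funext i
    exact congrArg Prod.fst (congrFun h2 i)
  · funext i
    exact congrArg Prod.snd (congrFun h2 i)

theorem prs_append {n m : ℕ} (a b : Fin n → ℕ) (c d : Fin m → ℕ) :
    prs (n + m) (Fin.append a c) (Fin.append b d) = prs n a b ++ prs m c d := by
  unfold prs
  rw [← List.ofFn_fin_append]
  congr 1
  funext i
  induction i using Fin.addCases with
  | left k => simp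
  | right k => simp

/-- Scott's theorem: tuples equivalent for all ordinals are in the same orbit -/
theorem orbit_of_bf {A : Struct ar} {n : ℕ} {a b : Fin n → ℕ} (h : ∀ α, BF A α n a b) :
    Orbit A n a b := by
  obtain ⟨γ, hγ⟩ := exists_stable A
  let E : List (ℕ × ℕ) → Prop := fun p => ∀ (n : ℕ) (a b : Fin n → ℕ), prs n a b = p →
    BF A γ n a b
  have hE : ∀ {n : ℕ} {a b : Fin n → ℕ}, BF A γ n a b → E (prs n a b) := by
    intro n a b h m c d h1
    obtain ⟨rfl, rfl, rfl⟩ := prs_inj h1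
    exact h
  have hone : ∀ {n : ℕ} (a b : Fin n → ℕ) (c d : Fin 1 → ℕ),
      prs (n + 1) (Fin.append a c) (Fin.append b d) = prs n a b ++ [(c 0, d 0)] := by
    intro n a b c d
    rw [prs_append]
    congr 1
  have hinj : ∀ p, E p → ∀ x ∈ p, ∀ y ∈ p, (x.1 = y.1 ↔ x.2 = y.2) := by
    intro p hp x hx y hy
    obtain ⟨n, a, b, rfl⟩ := prs_surj p
    have h1 := ((bf_def _ _ _ _ _).1 (hp n a b rfl)).1.1
    unfold prs at hx hy
    rw [List.mem_ofFn] at hx hy
    obtain ⟨i, rfl⟩ := hx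
    obtain ⟨j, rfl⟩ := hy
    exact h1 i j
  have hforth : ∀ p, E p → ∀ c, ∃ d, E (p ++ [(c, d)]) := by
    intro p hp c
    obtain ⟨n, a, b, rfl⟩ := prs_surj p
    have h1 := hγ _ _ _ (hp n a b rfl) (Order.succ γ)
    rw [bf_def] at h1
    obtain ⟨d, hd⟩ := (h1.2 γ (Order.lt_succ γ)).1 1 fun _ => c
    refine ⟨d 0, ?_⟩
    have := hE hd
    rwa [hone] at this
  have hback : ∀ p, E p → ∀ d, ∃ c, E (p ++ [(c, d)]) := by
    intro p hp d
    obtain ⟨n, a, b, rfl⟩ := prs_surj p
    have h1 := hγ _ _ _ (hp n a b rfl) (Order.succ γ)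
    rw [bf_def] at h1
    obtain ⟨c, hc⟩ := (h1.2 γ (Order.lt_succ γ)).2 1 fun _ => d
    refine ⟨c 0, ?_⟩
    have := hE hc
    rwa [hone] at this
  obtain ⟨f, hf1, hf2⟩ := bf_iso hinj hforth hback (hE (h γ))
  refine ⟨f, fun i v => ?_, fun k => ?_⟩
  · obtain ⟨p, hp, hm⟩ := hf2 (List.ofFn v)
    obtain ⟨n, a, b, rfl⟩ := prs_surj p
    have h1 := ((bf_def _ _ _ _ _).1 (hp n a b rfl)).1.2
    have h2 : ∀ k, ∃ j : Fin n, a j = v k ∧ b j = f (v k) := by
      intro k
      have h3 := hm (v k) (by rw [List.mem_ofFn]; exact ⟨k, rfl⟩)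
      unfold prs at h3
      rw [List.mem_ofFn] at h3
      obtain ⟨j, hj⟩ := h3
      exact ⟨j, congrArg Prod.fst hj, congrArg Prod.snd hj⟩
    choose s hs1 hs2 using h2
    have h3 := h1 i s
    simp only [hs1, hs2] at h3
    exact h3
  · exact hf1 (a k, b k) (by unfold prs; rw [List.mem_ofFn]; exact ⟨k, rfl⟩)

theorem tupleRank_spec (A : Struct ar) (n : ℕ) (a b : Fin n → ℕ)
    (h : BF A (tupleRank A n a) n a b) : Orbit A n a b := by
  obtain ⟨γ, hγ⟩ := exists_stable A
  have hne : {β : Ordinal.{0} | ∀ b, BF A β n a b → Orbit A n a b}.Nonempty :=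
    ⟨γ, fun b hb => orbit_of_bf (hγ n a b hb)⟩
  exact csInf_mem hne b h

theorem scottRank_spec (A : Struct ar) (n : ℕ) (a : Fin n → ℕ) :
    tupleRank A n a < scottRank A := by
  have hne : {α : Ordinal.{0} | ∀ (n : ℕ) (a : Fin n → ℕ), tupleRank A n a < α}.Nonempty := by
    refine ⟨Order.succ (⨆ q : (Σ n : ℕ, Fin n → ℕ), tupleRank A q.1 q.2), fun n a => ?_⟩
    exact Order.lt_succ_of_le (Ordinal.le_iSup (fun q : (Σ n : ℕ, Fin n → ℕ) =>
      tupleRank A q.1 q.2) ⟨n, a⟩)
  exact csInf_mem hne n a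

/-- if `α` is at least the Scott rank then `≡_α` is the orbit equivalence relation -/
theorem orbit_iff {A : Struct ar} {α : Ordinal.{0}} (h : scottRank A ≤ α) (n : ℕ)
    (a b : Fin n → ℕ) : Orbit A n a b ↔ BF A α n a b := by
  refine ⟨fun h1 => h1.bf α, fun h1 => ?_⟩
  exact tupleRank_spec A n a b (h1.mono ((scottRank_spec A n a).le.trans h))

end Pool.Agent.Y542
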