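import Mathlib
import Pool.Agent.Y542.Rank

set_option autoImplicit false
set_option maxHeartbeats 400000

namespace Pool.Agent.Y542

open Encodable Denumerable Pool.Agent.Helper941.Hyp

variable {ar : ℕ → ℕ}

/-- The infinitary formulas in the free variables `v_0, …, v_(n-1)`:
* `qf n θ`: a finitary quantifier-free formula in disjunctive normal form. A literal is
  `(b, 0, [x, y])` for the equation `v_x = v_y` (`b` true) or its negation (`b` false), and
  `(b, i + 1, [x_1, …, x_k])` for `R_i(v_(x_1), …, v_(x_k))` or its negation; `θ` is a list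
  (disjunction) of lists (conjunctions) of literals;
* `disj n k φ`: the disjunction over `i` of the formulas `∃ v_n … v_(n + k i - 1), φ i`;
* `conj n k φ`: the conjunction over `i` of the formulas `∀ v_n … v_(n + k i - 1), φ i`. -/
inductive Fml : ℕ → Type
  | qf (n : ℕ) (θ : List (List (Bool × ℕ × List ℕ))) : Fml n
  | disj (n : ℕ) (k : ℕ → ℕ) (φ : (i : ℕ) → Fml (n + k i)) : Fml n
  | conj (n : ℕ) (k : ℕ → ℕ) (φ : (i : ℕ) → Fml (n + k i)) : Fml n

/-- The literal `l` is well formed and true of the tuple `a` in `A`. -/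
def LitTrue (A : Struct ar) {n : ℕ} (a : Fin n → ℕ) (l : Bool × ℕ × List ℕ) : Prop :=
  (l.2.1 = 0 ∧ ∃ x y : Fin n, l.2.2 = [(x : ℕ), (y : ℕ)] ∧ (a x = a y ↔ l.1 = true)) ∨
    ∃ i : ℕ, l.2.1 = i + 1 ∧ ∃ w : Fin (ar i) → Fin n,
      l.2.2 = List.ofFn (fun k => (w k : ℕ)) ∧ ((A i fun k => a (w k)) ↔ l.1 = true)

/-- Truth of a formula in the structure with universe `U` and relations `A`. -/
def Sat (U : Set ℕ) (A : Struct ar) : {n : ℕ} → Fml n → (Fin n → ℕ) → Prop
  | _, .qf _ θ, a => ∃ C ∈ θ, ∀ l ∈ C, LitTrue A a l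
  | _, .disj _ k φ, a => ∃ i, ∃ b : Fin (k i) → ℕ, (∀ j, b j ∈ U) ∧ Sat U A (φ i) (Fin.append a b)
  | _, .conj _ k φ, a => ∀ i, ∀ b : Fin (k i) → ℕ, (∀ j, b j ∈ U) → Sat U A (φ i) (Fin.append a b)

/-- `Lv s φ α`: the formula `φ` is `Σ_α` (for `s = true`) or `Π_α` (for `s = false`). The
quantifier-free formulas are `Σ_α` and `Π_α` for all `α`; a disjunction (as above) is `Σ_α` if
all its members are `Π_β` for some `β < α`, and dually for conjunctions. -/
def Lv : {n : ℕ} → Fml n → Bool → Ordinal.{0} → Prop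
  | _, .qf _ _, _, _ => True
  | _, .disj _ _ φ, s, α => s = true ∧ ∀ i, ∃ β < α, Lv (φ i) false β
  | _, .conj _ _ φ, s, α => s = false ∧ ∀ i, ∃ β < α, Lv (φ i) true β

/-- The number `c` codes the formula `φ`: disjunctions and conjunctions are over sets of
formulas enumerated by the computable function with the given index. -/
def IsCode : {n : ℕ} → Fml n → ℕ → Prop
  | _, .qf _ θ, c => c = Nat.pair 0 (encode θ)
  | _, .disj _ k φ, c => c.unpair.1 = 1 ∧ ∀ i, ∃ d,
      Nat.Partrec.Code.eval (ofNat Nat.Partrec.Code c.unpair.2) i = Part.some (Nat.pair (k i) d) ∧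
        IsCode (φ i) d
  | _, .conj _ k φ, c => c.unpair.1 = 2 ∧ ∀ i, ∃ d,
      Nat.Partrec.Code.eval (ofNat Nat.Partrec.Code c.unpair.2) i = Part.some (Nat.pair (k i) d) ∧
        IsCode (φ i) d

/-- `φ` is a computable infinitary formula. -/
def CompFml {n : ℕ} (φ : Fml n) : Prop := ∃ c, IsCode φ c

/-- Every tuple `b` satisfying all the computable `Π_α` formulas true of `a` satisfies all the
computable infinitary formulas true of `a`. -/
def RankProp (A : Struct ar) (α : Ordinal.{0}) : Prop :=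
  ∀ (n : ℕ) (a b : Fin n → ℕ),
    (∀ φ : Fml n, CompFml φ → Lv φ false α → Sat Set.univ A φ a → Sat Set.univ A φ b) →
      ∀ φ : Fml n, CompFml φ → Sat Set.univ A φ a → Sat Set.univ A φ b

/-- The computable rank of `A` is `ω₁^CK`. -/
def NoncompRank (A : Struct ar) : Prop := ∀ α, IsCompOrdinal α → ¬ RankProp A α

/-- `B` with the universe `U` is a computable structure: `U` is computable and so is the set of
the codes of the atomic sentences (with parameters in `U`) true in `B`. -/
def CompOn (U : Set ℕ) (B : Struct ar) : Prop :=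
  (ComputablePred fun x => x ∈ U) ∧
    ComputablePred fun x => ∃ (i : ℕ) (v : Fin (ar i) → ℕ), (∀ k, v k ∈ U) ∧
      x = Nat.pair i (encode (List.ofFn v)) ∧ B i v

/-- `A` (with universe the natural numbers) is isomorphic to `B` with the universe `U`. -/
def IsoOn (A : Struct ar) (U : Set ℕ) (B : Struct ar) : Prop :=
  ∃ f : ℕ ≃ U, ∀ i v, A i v ↔ B i fun k => (f (v k) : ℕ)

theorem litTrue_congr {A : Struct ar} {n : ℕ} {a b : Fin n → ℕ} (h : AtomEq A n a b)
    (l : Bool × ℕ × List ℕ) : LitTrue A a l ↔ LitTrue A b l := by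
  unfold LitTrue
  refine or_congr (and_congr_right fun _ => exists_congr fun x => exists_congr fun y =>
    and_congr_right fun _ => ?_) (exists_congr fun i => and_congr_right fun _ =>
    exists_congr fun w => and_congr_right fun _ => ?_)
  · rw [h.1 x y]
  · rw [h.2 i w]

/-- back-and-forth equivalent tuples satisfy the same formulas -/
theorem sat_of_bf {A : Struct ar} {n : ℕ} (φ : Fml n) : ∀ (s : Bool) (α : Ordinal.{0})
    (a b : Fin n → ℕ), BF A α n a b → Lv φ s α →
    (Sat Set.univ A φ a ↔ Sat Set.univ A φ b) := by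
  induction φ with
  | qf n θ =>
    intro s α a b h _
    rw [bf_def] at h
    unfold Sat
    simp only [litTrue_congr h.1]
  | disj n k φ ih =>
    intro s α a b h hl
    rw [bf_def] at h
    obtain ⟨_, hl⟩ := hl
    unfold Sat
    refine exists_congr fun i => ?_
    obtain ⟨β, hβ, hl⟩ := hl i
    constructor
    · rintro ⟨c, _, hc⟩
      obtain ⟨d, hd⟩ := (h.2 β hβ).1 (k i) c
      exact ⟨d, fun _ => Set.mem_univ _, (ih i false β _ _ hd hl).1 hc⟩
    · rintro ⟨d, _, hd'⟩
      obtain ⟨c, hc⟩ := (h.2 β hβ).2 (k i) d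
      exact ⟨c, fun _ => Set.mem_univ _, (ih i false β _ _ hc hl).2 hd'⟩
  | conj n k φ ih =>
    intro s α a b h hl
    rw [bf_def] at h
    obtain ⟨_, hl⟩ := hl
    unfold Sat
    refine forall_congr' fun i => ?_
    obtain ⟨β, hβ, hl⟩ := hl i
    constructor
    · intro H d _
      obtain ⟨c, hc⟩ := (h.2 β hβ).2 (k i) d
      exact (ih i true β _ _ hc hl).1 (H c fun _ => Set.mem_univ _)
    · intro H c _
      obtain ⟨d, hd⟩ := (h.2 β hβ).1 (k i) c
      exact (ih i true β _ _ hd hl).2 (H d fun _ => Set.mem_univ _)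

end Pool.Agent.Y542
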