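import Mathlib
import Pool.Agent.Helper941.Hyp.Ind
import Pool.Agent.Y542.Rank
import Pool.Agent.Y542.SigF

set_option autoImplicit false
set_option maxHeartbeats 400000

namespace Pool.Agent.Y542

open Encodable Denumerable Nat.Partrec Pool.Agent.Helper941 Pool.Agent.Helper941.IsoProb
open Pool.Agent.Helper941.Zeta Pool.Agent.Helper941.Hyp Pool.Agent.Helper941.Dim

/-- the first components -/
def gf (p : List (ℕ × ℕ)) (i : ℕ) : ℕ := gt (p.map Prod.fst) i

/-- the second components -/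
def gs (p : List (ℕ × ℕ)) (i : ℕ) : ℕ := gt (p.map Prod.snd) i

section
variable {α : Type} [Primcodable α]

theorem c_map {β γ : Type} [Primcodable β] [Primcodable γ] {l : α → List β} {g : β → γ}
    (hl : Computable l) (hg : Computable g) : Computable fun a => (l a).map g := by
  have h1 : Computable fun a => (List.range (l a).length).map fun i => ((l a)[i]?).map g := by
    refine c_tab (Computable.list_length.comp hl) ?_
    exact Computable.option_map (Computable.list_getElem?.comp (hl.comp Computable.fst)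
      Computable.snd) (hg.comp Computable.snd).to₂
  have h2 : Computable fun a => ((List.range (l a).length).map fun i =>
      ((l a)[i]?).map g).flatMap Option.toList := by
    have h3 : Primrec fun m : List (Option γ) => m.flatMap Option.toList := by
      refine Primrec.list_flatMap Primrec.id ?_
      have h4 : Primrec (Option.toList : Option γ → List γ) := by
        refine (Primrec.option_casesOn (o := fun o : Option γ => o) Primrec.id
          (Primrec.const []) (g := fun _ b => [b]) ?_).of_eq fun o => by cases o <;> rfl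
        exact (Primrec.list_cons.comp Primrec.snd (Primrec.const [])).to₂
      exact (h4.comp Primrec.snd).to₂
    exact h3.to_comp.comp h1
  refine h2.of_eq fun a => ?_
  generalize l a = m
  induction m with
  | nil => rfl
  | cons x m ih =>
    rw [List.length_cons, List.range_succ_eq_map, List.map_cons, List.flatMap_cons,
      List.map_map]
    have h5 : ((fun i => ((x :: m)[i]?).map g) ∘ Nat.succ) = fun i => (m[i]?).map g := by
      funext i
      simp
    rw [h5, ih]
    simp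

theorem c_gf {p : α → List (ℕ × ℕ)} {i : α → ℕ} (hp : Computable p) (hi : Computable i) :
    Computable fun a => gf (p a) (i a) := c_gt (c_map hp Computable.fst) hi

theorem c_gs {p : α → List (ℕ × ℕ)} {i : α → ℕ} (hp : Computable p) (hi : Computable i) :
    Computable fun a => gs (p a) (i a) := c_gt (c_map hp Computable.snd) hi

theorem c_zip {c d : α → List ℕ} (hc : Computable c) (hd : Computable d) :
    Computable fun a => (c a).zip (d a) := by
  have h1 : Computable fun a => (List.range (min (c a).length (d a).length)).map fun i =>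
      (gt (c a) i, gt (d a) i) := by
    refine c_tab ?_ ?_
    · exact (Primrec.nat_min.to_comp).comp (Computable.list_length.comp hc)
        (Computable.list_length.comp hd)
    · exact c_pair (c_gt (hc.comp Computable.fst) Computable.snd)
        (c_gt (hd.comp Computable.fst) Computable.snd)
  refine h1.of_eq fun a => ?_
  refine List.ext_getElem (by simp) fun i h2 h3 => ?_
  simp only [List.length_map, List.length_range, lt_min_iff] at h2
  simp [gt, h2.1, h2.2]

theorem c_append {β : Type} [Primcodable β] {c d : α → List β} (hc : Computable c)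
    (hd : Computable d) : Computable fun a => c a ++ d a := Computable.list_append.comp hc hd

end

/-- atomic equivalence -/
def QL (B : Str) (p : List (ℕ × ℕ)) : Prop :=
  (∀ q : ℕ × ℕ, q.1 < p.length → q.2 < p.length →
    (gf p q.1 = gf p q.2 ↔ gs p q.1 = gs p q.2)) ∧
  ∀ q : ℕ × ℕ × ℕ, q.2.1 < p.length → q.2.2 < p.length →
    (B q.1 (gf p q.2.1) (gf p q.2.2) ↔ B q.1 (gs p q.2.1) (gs p q.2.2))

theorem gf_prs {n : ℕ} (a b : Fin n → ℕ) (i : Fin n) : gf (prs n a b) i = a i := by
  unfold gf gt prs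
  simp

theorem gs_prs {n : ℕ} (a b : Fin n → ℕ) (i : Fin n) : gs (prs n a b) i = b i := by
  unfold gs gt prs
  simp

theorem len_prs {n : ℕ} (a b : Fin n → ℕ) : (prs n a b).length = n := by
  unfold prs
  simp

theorem atomEq_iff {B : Str} {n : ℕ} (a b : Fin n → ℕ) :
    AtomEq (toS B) n a b ↔ QL B (prs n a b) := by
  unfold AtomEq QL
  rw [len_prs]
  refine and_congr ⟨fun h q h1 h2 => ?_, fun h i j => ?_⟩
    ⟨fun h q h1 h2 => ?_, fun h i s => ?_⟩
  · have h3 := h ⟨q.1, h1⟩ ⟨q.2, h2⟩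
    have h4 := gf_prs a b ⟨q.1, h1⟩
    have h5 := gf_prs a b ⟨q.2, h2⟩
    have h6 := gs_prs a b ⟨q.1, h1⟩
    have h7 := gs_prs a b ⟨q.2, h2⟩
    rw [← h4, ← h5, ← h6, ← h7] at h3
    exact h3
  · have h3 := h (i, j) i.2 j.2
    simp only [gf_prs, gs_prs] at h3
    exact h3
  · have h3 := h q.1 ![⟨q.2.1, h1⟩, ⟨q.2.2, h2⟩]
    have h4 := gf_prs a b ⟨q.2.1, h1⟩
    have h5 := gf_prs a b ⟨q.2.2, h2⟩
    have h6 := gs_prs a b ⟨q.2.1, h1⟩
    have h7 := gs_prs a b ⟨q.2.2, h2⟩
    have h8 : B q.1 (a ⟨q.2.1, h1⟩) (a ⟨q.2.2, h2⟩) ↔ B q.1 (b ⟨q.2.1, h1⟩) (b ⟨q.2.2, h2⟩) :=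
      h3
    rw [← h4, ← h5, ← h6, ← h7] at h8
    exact h8
  · have h3 := h (i, s 0, s 1) (s 0).2 (s 1).2
    simp only [gf_prs, gs_prs] at h3
    exact h3

/-- one step of the recursion -/
def Step (R : ℕ → ℕ → Prop) (B : Str) (E : ℕ × List (ℕ × ℕ) → Prop)
    (q : ℕ × List (ℕ × ℕ)) : Prop :=
  QL B q.2 ∧ ∀ z, R z q.1 →
    (∀ c : List ℕ, ∃ d : List ℕ, d.length = c.length ∧ E (z, q.2 ++ c.zip d)) ∧
    (∀ d : List ℕ, ∃ c : List ℕ, c.length = d.length ∧ E (z, q.2 ++ c.zip d))

/-- the last step of the recursion -/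
def Last (B : Str) (E : ℕ × List (ℕ × ℕ) → Prop) (p : List (ℕ × ℕ)) : Prop :=
  QL B p ∧ ∀ z,
    (∀ c : List ℕ, ∃ d : List ℕ, d.length = c.length ∧ E (z, p ++ c.zip d)) ∧
    (∀ d : List ℕ, ∃ c : List ℕ, c.length = d.length ∧ E (z, p ++ c.zip d))

theorem delta_QL {B : Str} (hB : IsComp B) : Delta11 (QL B) := by
  have h1 : Delta11 fun p : List (ℕ × ℕ) => ∀ q : ℕ × ℕ, q.1 < p.length → q.2 < p.length →
      (gf p q.1 = gf p q.2 ↔ gs p q.1 = gs p q.2) := by
    refine Delta11.all' (P := fun r : List (ℕ × ℕ) × ℕ × ℕ =>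
      r.2.1 < r.1.length → r.2.2 < r.1.length →
      (gf r.1 r.2.1 = gf r.1 r.2.2 ↔ gs r.1 r.2.1 = gs r.1 r.2.2)) ?_
    refine Delta11.of_computable ?_
    have hl : Computable fun r : List (ℕ × ℕ) × ℕ × ℕ => r.1.length :=
      Computable.list_length.comp (c_fst c_id)
    have hi : Computable fun r : List (ℕ × ℕ) × ℕ × ℕ => r.2.1 := c_fst (c_snd c_id)
    have hj : Computable fun r : List (ℕ × ℕ) × ℕ × ℕ => r.2.2 := c_snd (c_snd c_id)
    exact p_imp (p_lt hi hl) (p_imp (p_lt hj hl) (p_iff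
      (p_eq (c_gf (c_fst c_id) hi) (c_gf (c_fst c_id) hj))
      (p_eq (c_gs (c_fst c_id) hi) (c_gs (c_fst c_id) hj))))
  have h2 : Delta11 fun p : List (ℕ × ℕ) => ∀ q : ℕ × ℕ × ℕ, q.2.1 < p.length →
      q.2.2 < p.length →
      (B q.1 (gf p q.2.1) (gf p q.2.2) ↔ B q.1 (gs p q.2.1) (gs p q.2.2)) := by
    refine Delta11.all' (P := fun r : List (ℕ × ℕ) × ℕ × ℕ × ℕ =>
      r.2.2.1 < r.1.length → r.2.2.2 < r.1.length →
      (B r.2.1 (gf r.1 r.2.2.1) (gf r.1 r.2.2.2) ↔ B r.2.1 (gs r.1 r.2.2.1)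
        (gs r.1 r.2.2.2))) ?_
    refine Delta11.of_computable ?_
    have hl : Computable fun r : List (ℕ × ℕ) × ℕ × ℕ × ℕ => r.1.length :=
      Computable.list_length.comp (c_fst c_id)
    have hk : Computable fun r : List (ℕ × ℕ) × ℕ × ℕ × ℕ => r.2.1 := c_fst (c_snd c_id)
    have hi : Computable fun r : List (ℕ × ℕ) × ℕ × ℕ × ℕ => r.2.2.1 :=
      c_fst (c_snd (c_snd c_id))
    have hj : Computable fun r : List (ℕ × ℕ) × ℕ × ℕ × ℕ => r.2.2.2 :=
      c_snd (c_snd (c_snd c_id))
    exact p_imp (p_lt hi hl) (p_imp (p_lt hj hl) (p_iff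
      (computablePred_comp (P := fun q : ℕ × ℕ × ℕ => B q.1 q.2.1 q.2.2) hB
        (c_pair hk (c_pair (c_gf (c_fst c_id) hi) (c_gf (c_fst c_id) hj))))
      (computablePred_comp (P := fun q : ℕ × ℕ × ℕ => B q.1 q.2.1 q.2.2) hB
        (c_pair hk (c_pair (c_gs (c_fst c_id) hi) (c_gs (c_fst c_id) hj))))))
  exact h1.and h2

/-- the predicate coded by a function -/
def Cd (f : ℕ → ℕ) (q : ℕ × List (ℕ × ℕ)) : Prop := f (encode q) = 1

theorem delF_cd {α : Type} [Primcodable α] {t : α → ℕ × List (ℕ × ℕ)} (ht : Computable t) :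
    DelF fun a f => Cd f (t a) :=
  DelF.val (Q := fun p : α × ℕ => p.2 = 1) (p_eq (c_snd c_id) (c_const 1))
    (Computable.encode.comp ht)

theorem delF_ext {α : Type} [Primcodable α] {z : α → ℕ} {p : α → List (ℕ × ℕ)}
    (hz : Computable z) (hp : Computable p) : DelF fun a f =>
    (∀ c : List ℕ, ∃ d : List ℕ, d.length = c.length ∧ Cd f (z a, p a ++ c.zip d)) ∧
    (∀ d : List ℕ, ∃ c : List ℕ, c.length = d.length ∧ Cd f (z a, p a ++ c.zip d)) := by
  have hc : Computable fun r : (α × List ℕ) × List ℕ => r.1.2 := c_snd (c_fst c_id)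
  have hd : Computable fun r : (α × List ℕ) × List ℕ => r.2 := c_snd c_id
  have hz' : Computable fun r : (α × List ℕ) × List ℕ => z r.1.1 := hz.comp (c_fst (c_fst c_id))
  have hp' : Computable fun r : (α × List ℕ) × List ℕ => p r.1.1 := hp.comp (c_fst (c_fst c_id))
  refine DelF.and ?_ ?_
  · refine DelF.all' (P := fun (r : α × List ℕ) f => ∃ d : List ℕ, d.length = r.2.length ∧
      Cd f (z r.1, p r.1 ++ r.2.zip d)) ?_
    refine DelF.ex' (P := fun (r : (α × List ℕ) × List ℕ) f => r.2.length = r.1.2.length ∧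
      Cd f (z r.1.1, p r.1.1 ++ r.1.2.zip r.2)) ?_
    refine (DelF.of_computable (p_eq (Computable.list_length.comp hd)
      (Computable.list_length.comp hc))).and (delF_cd ?_)
    exact c_pair hz' (c_append hp' (c_zip hc hd))
  · refine DelF.all' (P := fun (r : α × List ℕ) f => ∃ c : List ℕ, c.length = r.2.length ∧
      Cd f (z r.1, p r.1 ++ c.zip r.2)) ?_
    refine DelF.ex' (P := fun (r : (α × List ℕ) × List ℕ) f => r.2.length = r.1.2.length ∧
      Cd f (z r.1.1, p r.1.1 ++ r.2.zip r.1.2)) ?_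
    refine (DelF.of_computable (p_eq (Computable.list_length.comp hd)
      (Computable.list_length.comp hc))).and (delF_cd ?_)
    exact c_pair hz' (c_append hp' (c_zip hd hc))

theorem delF_step {R : ℕ → ℕ → Prop} (hR : ComputablePred fun p : ℕ × ℕ => R p.1 p.2)
    {B : Str} (hB : IsComp B) : DelF fun q f => Step R B (Cd f) q := by
  have h1 : DelF fun (q : ℕ × List (ℕ × ℕ)) (_ : ℕ → ℕ) => QL B q.2 :=
    DelF.of_delta ((delta_QL hB).comp (c_snd c_id))
  refine h1.and ?_
  refine DelF.all (P := fun (r : (ℕ × List (ℕ × ℕ)) × ℕ) f => R r.2 r.1.1 →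
    (∀ c : List ℕ, ∃ d : List ℕ, d.length = c.length ∧ Cd f (r.2, r.1.2 ++ c.zip d)) ∧
    (∀ d : List ℕ, ∃ c : List ℕ, c.length = d.length ∧ Cd f (r.2, r.1.2 ++ c.zip d))) ?_
  refine (DelF.of_computable ?_).imp (delF_ext (c_snd c_id) (c_snd (c_fst c_id)))
  exact computablePred_comp (P := fun p : ℕ × ℕ => R p.1 p.2) hR
    (c_pair (c_snd c_id) (c_fst (c_fst c_id)))

theorem delF_last {B : Str} (hB : IsComp B) : DelF fun p f => Last B (Cd f) p := by
  have h1 : DelF fun (q : List (ℕ × ℕ)) (_ : ℕ → ℕ) => QL B q := DelF.of_delta (delta_QL hB)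
  refine h1.and ?_
  refine DelF.all (P := fun (r : List (ℕ × ℕ) × ℕ) f =>
    (∀ c : List ℕ, ∃ d : List ℕ, d.length = c.length ∧ Cd f (r.2, r.1 ++ c.zip d)) ∧
    (∀ d : List ℕ, ∃ c : List ℕ, c.length = d.length ∧ Cd f (r.2, r.1 ++ c.zip d))) ?_
  exact delF_ext (c_snd c_id) (c_fst c_id)

/-- the back-and-forth relation in list form -/
def BL (B : Str) (α : Ordinal.{0}) (p : List (ℕ × ℕ)) : Prop :=
  ∀ (n : ℕ) (a b : Fin n → ℕ), prs n a b = p → BF (toS B) α n a b

theorem bl_prs {B : Str} {α : Ordinal.{0}} {n : ℕ} {a b : Fin n → ℕ} :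
    BL B α (prs n a b) ↔ BF (toS B) α n a b := by
  constructor
  · intro h
    exact h n a b rfl
  · intro h m c d h1
    obtain ⟨rfl, rfl, rfl⟩ := prs_inj h1
    exact h

theorem prs_zip {m : ℕ} (c d : Fin m → ℕ) : prs m c d = (List.ofFn c).zip (List.ofFn d) := by
  unfold prs
  refine List.ext_getElem (by simp) fun i h2 h3 => ?_
  simp

theorem bl_iff {B : Str} {α : Ordinal.{0}} {p : List (ℕ × ℕ)} : BL B α p ↔
    QL B p ∧ ∀ β < α,
    (∀ c : List ℕ, ∃ d : List ℕ, d.length = c.length ∧ BL B β (p ++ c.zip d)) ∧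
    (∀ d : List ℕ, ∃ c : List ℕ, c.length = d.length ∧ BL B β (p ++ c.zip d)) := by
  obtain ⟨n, a, b, rfl⟩ := prs_surj p
  rw [bl_prs, bf_def, atomEq_iff]
  refine and_congr_right fun _ => forall_congr' fun β => forall_congr' fun _ =>
    and_congr ⟨fun h c => ?_, fun h m c => ?_⟩ ⟨fun h c => ?_, fun h m c => ?_⟩
  · obtain ⟨d, hd⟩ := h c.length c.get
    refine ⟨List.ofFn d, by simp, ?_⟩
    rw [← bl_prs, prs_append, prs_zip c.get d, List.ofFn_get] at hd
    exact hd
  · obtain ⟨d, h1, hd⟩ := h (List.ofFn c)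
    have hl : d.length = m := by rw [h1, List.length_ofFn]
    subst hl
    refine ⟨d.get, ?_⟩
    rw [← bl_prs, prs_append, prs_zip c d.get, List.ofFn_get]
    exact hd
  · obtain ⟨d, hd⟩ := h c.length c.get
    refine ⟨List.ofFn d, by simp, ?_⟩
    rw [← bl_prs, prs_append, prs_zip d c.get, List.ofFn_get] at hd
    exact hd
  · obtain ⟨d, h1, hd⟩ := h (List.ofFn c)
    have hl : d.length = m := by rw [h1, List.length_ofFn]
    subst hl
    refine ⟨d.get, ?_⟩
    rw [← bl_prs, prs_append, prs_zip d.get c, List.ofFn_get]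
    exact hd

theorem step_bl {R : ℕ → ℕ → Prop} [IsWellOrder ℕ R] {B : Str} (q : ℕ × List (ℕ × ℕ)) :
    BL B (Ordinal.typein R q.1) q.2 ↔
      Step R B (fun q => BL B (Ordinal.typein R q.1) q.2) q := by
  rw [bl_iff]
  refine and_congr_right fun _ => ⟨fun h z hz => ?_, fun h β hβ => ?_⟩
  · exact h _ ((Ordinal.typein_lt_typein R).2 hz)
  · obtain ⟨z, rfl⟩ := Ordinal.mem_range_typein_iff R |>.2 (hβ.trans (Ordinal.typein_lt_type R q.1))
    exact h z ((Ordinal.typein_lt_typein R).1 hβ)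

theorem last_bl {R : ℕ → ℕ → Prop} [IsWellOrder ℕ R] {B : Str} (p : List (ℕ × ℕ)) :
    BL B (Ordinal.type R) p ↔ Last B (fun q => BL B (Ordinal.typein R q.1) q.2) p := by
  rw [bl_iff]
  refine and_congr_right fun _ => ⟨fun h z => ?_, fun h β hβ => ?_⟩
  · exact h _ (Ordinal.typein_lt_type R z)
  · obtain ⟨z, rfl⟩ := Ordinal.mem_range_typein_iff R |>.2 hβ
    exact h z

/-- back-and-forth relations of computable levels are `Δ¹₁` -/
theorem delta_BL {R : ℕ → ℕ → Prop} [IsWellOrder ℕ R]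
    (hR : ComputablePred fun p : ℕ × ℕ => R p.1 p.2) {B : Str} (hB : IsComp B) :
    Delta11 (BL B (Ordinal.type R)) := by
  classical
  let W : (ℕ → ℕ) → Prop := fun f => ∀ q, (Cd f q ↔ Step R B (Cd f) q)
  refine delta_of_unique (W := W) (Q := fun p f => Last B (Cd f) p) ?_ (delF_last hB) ?_ ?_
  · refine (DelF.all' (P := fun (r : ℕ × (ℕ × List (ℕ × ℕ))) f =>
      (Cd f r.2 ↔ Step R B (Cd f) r.2)) ?_).1
    exact (delF_cd (c_snd c_id)).iff ((delF_step hR hB).comp (c_snd c_id))
  · refine ⟨fun x => if BL B (Ordinal.typein R (ofNat (ℕ × List (ℕ × ℕ)) x).1)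
      (ofNat (ℕ × List (ℕ × ℕ)) x).2 then 1 else 0, ?_⟩
    have h1 : Cd (fun x => if BL B (Ordinal.typein R (ofNat (ℕ × List (ℕ × ℕ)) x).1)
        (ofNat (ℕ × List (ℕ × ℕ)) x).2 then 1 else 0) =
        fun q => BL B (Ordinal.typein R q.1) q.2 := by
      funext q
      unfold Cd
      simp only [ofNat_encode]
      by_cases h : BL B (Ordinal.typein R q.1) q.2
      · simp [h]
      · simp [h]
    intro q
    rw [h1]
    exact step_bl q
  · intro f hf p
    have h1 : ∀ z p, Cd f (z, p) ↔ BL B (Ordinal.typein R z) p := by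
      intro z
      induction z using (IsWellFounded.wf (r := R)).induction with
      | _ z ih =>
        intro p
        rw [hf (z, p)]
        have h2 := step_bl (R := R) (B := B) (z, p)
        simp only at h2
        rw [h2]
        unfold Step
        refine and_congr_right fun _ => forall_congr' fun y => forall_congr' fun hy => ?_
        simp only [ih y hy]
    have h2 : Cd f = fun q => BL B (Ordinal.typein R q.1) q.2 := by
      funext q
      exact propext (h1 q.1 q.2)
    rw [h2]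
    exact last_bl p

/-- if the Scott rank is computable then the orbits are `Δ¹₁` -/
theorem delta_orbit {B : Str} (hB : IsComp B) (h : IsCompOrdinal (scottRank (toS B))) :
    Delta11 fun q : ℕ × ℕ => Orbit (toS B) 1 (fun _ => q.1) (fun _ => q.2) := by
  obtain ⟨R, hR, hwo, hle⟩ := h
  have h1 : Delta11 fun q : ℕ × ℕ => BL B (Ordinal.type R) [q] :=
    (delta_BL hR hB).comp (f := fun q : ℕ × ℕ => [q])
      (Computable.list_cons.comp c_id (c_const []))
  refine h1.of_iff fun q => ?_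
  rw [orbit_iff hle, ← bl_prs]
  rfl

end Pool.Agent.Y542
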