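import Mathlib
import Pool.Agent.Y542.RankDel
import Pool.Agent.Helper941.Hyp.Cls

set_option autoImplicit false
set_option maxHeartbeats 400000

namespace Pool.Agent.Y542

open Encodable Denumerable Nat.Partrec Pool.Agent.Helper941 Pool.Agent.Helper941.IsoProb
open Pool.Agent.Helper941.Zeta Pool.Agent.Helper941.Hyp Pool.Agent.Helper941.Dim

theorem p_UT : ComputablePred fun q : ℕ × ℕ × List ℕ => UT q.1 q.2.1 q.2.2 := by
  have h3 := c_halts (α := (ℕ × ℕ × List ℕ) × ℕ) (a := fun p => p.1.1)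
    (b := fun p => Nat.pair p.1.2.1 (encode (tk p.1.2.2 p.2))) (c := fun p => p.1.2.2.length)
    (c_fst (c_fst c_id)) (c_npair (c_fst (c_snd (c_fst c_id))) (Computable.encode.comp
      (c_tk (c_snd (c_snd (c_fst c_id))) (c_snd c_id))))
      (Computable.list_length.comp (c_snd (c_snd (c_fst c_id))))
  exact p_ball (c_succ (Computable.list_length.comp (c_snd (c_snd c_id))))
    (p_not (p_of_bool h3))

theorem sigma_diag : Sigma11 fun e => UU1 e e := by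
  refine ⟨fun p : ℕ × List ℕ => UT p.1 p.1 p.2, ?_, fun e => Iff.rfl⟩
  exact computablePred_comp p_UT (c_pair (c_fst c_id) (c_pair (c_fst c_id) (c_snd c_id)))

/-- overspill -/
theorem overspill {Q : ℕ → Prop} (hQ : Sigma11 Q) (h : ∀ e, ¬ UU1 e e → Q e) :
    ∃ e, UU1 e e ∧ Q e := by
  by_contra hc
  push Not at hc
  exact not_delta_diag ⟨sigma_diag, hQ.of_iff fun e => ⟨h e, fun h1 h2 => hc e h2 h1⟩⟩

/-- the tuples of the first components in `A` and of the second components in `B` satisfy the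
same atomic formulas -/
def QL2 (A B : Str) (p : List (ℕ × ℕ)) : Prop :=
  (∀ q : ℕ × ℕ, q.1 < p.length → q.2 < p.length →
    (gf p q.1 = gf p q.2 ↔ gs p q.1 = gs p q.2)) ∧
  ∀ q : ℕ × ℕ × ℕ, q.2.1 < p.length → q.2.2 < p.length →
    (A q.1 (gf p q.2.1) (gf p q.2.2) ↔ B q.1 (gs p q.2.1) (gs p q.2.2))

/-- back-and-forth systems along the tree number `e` -/
def PF (e : ℕ) (A B : Str) (E : List ℕ × List (ℕ × ℕ) → Prop) : Prop :=
  ∀ q : List ℕ × List (ℕ × ℕ), E q → QL2 A B q.2 ∧ ∀ k, UT e e (q.1 ++ [k]) →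
    (∀ c, ∃ d, E (q.1 ++ [k], q.2 ++ [(c, d)])) ∧ (∀ d, ∃ c, E (q.1 ++ [k], q.2 ++ [(c, d)]))

/-- the predicate coded by a function -/
def Ce (f : ℕ → ℕ) (q : List ℕ × List (ℕ × ℕ)) : Prop := f (encode q) = 1

theorem delF_ce {α : Type} [Primcodable α] {t : α → List ℕ × List (ℕ × ℕ)}
    (ht : Computable t) : DelF fun a f => Ce f (t a) :=
  DelF.val (Q := fun p : α × ℕ => p.2 = 1) (p_eq (c_snd c_id) (c_const 1))
    (Computable.encode.comp ht)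

theorem exists_ce (E : List ℕ × List (ℕ × ℕ) → Prop) : ∃ f, Ce f = E := by
  classical
  refine ⟨fun x => if E (ofNat (List ℕ × List (ℕ × ℕ)) x) then 1 else 0, ?_⟩
  funext q
  unfold Ce
  simp only [ofNat_encode]
  by_cases h : E q
  · simp [h]
  · simp [h]

theorem delta_QL2 {A : Str} (hA : IsComp A) :
    Delta11 fun r : ℕ × List (ℕ × ℕ) => QL2 A (SI r.1) r.2 := by
  have h1 : Delta11 fun p : ℕ × List (ℕ × ℕ) => ∀ q : ℕ × ℕ, q.1 < p.2.length →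
      q.2 < p.2.length → (gf p.2 q.1 = gf p.2 q.2 ↔ gs p.2 q.1 = gs p.2 q.2) := by
    refine Delta11.all' (P := fun r : (ℕ × List (ℕ × ℕ)) × ℕ × ℕ =>
      r.2.1 < r.1.2.length → r.2.2 < r.1.2.length →
      (gf r.1.2 r.2.1 = gf r.1.2 r.2.2 ↔ gs r.1.2 r.2.1 = gs r.1.2 r.2.2)) ?_
    refine Delta11.of_computable ?_
    have hp : Computable fun r : (ℕ × List (ℕ × ℕ)) × ℕ × ℕ => r.1.2 := c_snd (c_fst c_id)
    have hl : Computable fun r : (ℕ × List (ℕ × ℕ)) × ℕ × ℕ => r.1.2.length :=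
      Computable.list_length.comp hp
    have hi : Computable fun r : (ℕ × List (ℕ × ℕ)) × ℕ × ℕ => r.2.1 := c_fst (c_snd c_id)
    have hj : Computable fun r : (ℕ × List (ℕ × ℕ)) × ℕ × ℕ => r.2.2 := c_snd (c_snd c_id)
    exact p_imp (p_lt hi hl) (p_imp (p_lt hj hl) (p_iff
      (p_eq (c_gf hp hi) (c_gf hp hj)) (p_eq (c_gs hp hi) (c_gs hp hj))))
  have h2 : Delta11 fun p : ℕ × List (ℕ × ℕ) => ∀ q : ℕ × ℕ × ℕ, q.2.1 < p.2.length →
      q.2.2 < p.2.length →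
      (A q.1 (gf p.2 q.2.1) (gf p.2 q.2.2) ↔ SI p.1 q.1 (gs p.2 q.2.1) (gs p.2 q.2.2)) := by
    refine Delta11.all' (P := fun r : (ℕ × List (ℕ × ℕ)) × ℕ × ℕ × ℕ =>
      r.2.2.1 < r.1.2.length → r.2.2.2 < r.1.2.length →
      (A r.2.1 (gf r.1.2 r.2.2.1) (gf r.1.2 r.2.2.2) ↔ SI r.1.1 r.2.1 (gs r.1.2 r.2.2.1)
        (gs r.1.2 r.2.2.2))) ?_
    have hp : Computable fun r : (ℕ × List (ℕ × ℕ)) × ℕ × ℕ × ℕ => r.1.2 := c_snd (c_fst c_id)
    have hm : Computable fun r : (ℕ × List (ℕ × ℕ)) × ℕ × ℕ × ℕ => r.1.1 := c_fst (c_fst c_id)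
    have hl : Computable fun r : (ℕ × List (ℕ × ℕ)) × ℕ × ℕ × ℕ => r.1.2.length :=
      Computable.list_length.comp hp
    have hk : Computable fun r : (ℕ × List (ℕ × ℕ)) × ℕ × ℕ × ℕ => r.2.1 := c_fst (c_snd c_id)
    have hi : Computable fun r : (ℕ × List (ℕ × ℕ)) × ℕ × ℕ × ℕ => r.2.2.1 :=
      c_fst (c_snd (c_snd c_id))
    have hj : Computable fun r : (ℕ × List (ℕ × ℕ)) × ℕ × ℕ × ℕ => r.2.2.2 :=
      c_snd (c_snd (c_snd c_id))
    refine (Delta11.of_computable (p_lt hi hl)).imp ((Delta11.of_computable (p_lt hj hl)).imp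
      ((Delta11.of_computable ?_).iff (delta_SI hm hk (c_gs hp hi) (c_gs hp hj))))
    exact computablePred_comp (P := fun q : ℕ × ℕ × ℕ => A q.1 q.2.1 q.2.2) hA
        (c_pair hk (c_pair (c_gf hp hi) (c_gf hp hj)))
  exact h1.and h2

theorem delF_PF {A : Str} (hA : IsComp A) :
    DelF fun (r : ℕ × ℕ) f => PF r.1 A (SI r.2) (Ce f) := by
  refine DelF.all' (P := fun (s : (ℕ × ℕ) × (List ℕ × List (ℕ × ℕ))) f => Ce f s.2 →
    QL2 A (SI s.1.2) s.2.2 ∧ ∀ k, UT s.1.1 s.1.1 (s.2.1 ++ [k]) →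
    (∀ c, ∃ d, Ce f (s.2.1 ++ [k], s.2.2 ++ [(c, d)])) ∧
    (∀ d, ∃ c, Ce f (s.2.1 ++ [k], s.2.2 ++ [(c, d)]))) ?_
  refine (delF_ce (c_snd c_id)).imp ((DelF.of_delta ((delta_QL2 hA).comp (f :=
    fun s : (ℕ × ℕ) × (List ℕ × List (ℕ × ℕ)) => (s.1.2, s.2.2))
    (c_pair (c_snd (c_fst c_id)) (c_snd (c_snd c_id))))).and ?_)
  refine DelF.all (P := fun (s : ((ℕ × ℕ) × (List ℕ × List (ℕ × ℕ))) × ℕ) f =>
    UT s.1.1.1 s.1.1.1 (s.1.2.1 ++ [s.2]) →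
    (∀ c, ∃ d, Ce f (s.1.2.1 ++ [s.2], s.1.2.2 ++ [(c, d)])) ∧
    (∀ d, ∃ c, Ce f (s.1.2.1 ++ [s.2], s.1.2.2 ++ [(c, d)]))) ?_
  have hone : ∀ {α : Type} [Primcodable α] {u : α → ℕ}, Computable u →
      Computable fun a => [u a] := fun hu => Computable.list_cons.comp hu (c_const [])
  have hone2 : ∀ {α : Type} [Primcodable α] {u : α → ℕ × ℕ}, Computable u →
      Computable fun a => [u a] := fun hu => Computable.list_cons.comp hu (c_const [])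
  refine (DelF.of_computable ?_).imp (DelF.and ?_ ?_)
  · exact computablePred_comp p_UT (c_pair (c_fst (c_fst (c_fst c_id))) (c_pair
      (c_fst (c_fst (c_fst c_id))) (c_append (c_fst (c_snd (c_fst c_id))) (hone (c_snd c_id)))))
  · refine DelF.all (P := fun (s : (((ℕ × ℕ) × (List ℕ × List (ℕ × ℕ))) × ℕ) × ℕ) f =>
      ∃ d, Ce f (s.1.1.2.1 ++ [s.1.2], s.1.1.2.2 ++ [(s.2, d)])) ?_
    refine DelF.ex (P := fun (s : ((((ℕ × ℕ) × (List ℕ × List (ℕ × ℕ))) × ℕ) × ℕ) × ℕ) f =>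
      Ce f (s.1.1.1.2.1 ++ [s.1.1.2], s.1.1.1.2.2 ++ [(s.1.2, s.2)])) ?_
    refine delF_ce (c_pair (c_append (c_fst (c_snd (c_fst (c_fst (c_fst c_id)))))
      (hone (c_snd (c_fst (c_fst c_id))))) (c_append (c_snd (c_snd (c_fst (c_fst (c_fst c_id)))))
      (hone2 (c_pair (c_snd (c_fst c_id)) (c_snd c_id)))))
  · refine DelF.all (P := fun (s : (((ℕ × ℕ) × (List ℕ × List (ℕ × ℕ))) × ℕ) × ℕ) f =>
      ∃ d, Ce f (s.1.1.2.1 ++ [s.1.2], s.1.1.2.2 ++ [(d, s.2)])) ?_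
    refine DelF.ex (P := fun (s : ((((ℕ × ℕ) × (List ℕ × List (ℕ × ℕ))) × ℕ) × ℕ) × ℕ) f =>
      Ce f (s.1.1.1.2.1 ++ [s.1.1.2], s.1.1.1.2.2 ++ [(s.2, s.1.2)])) ?_
    refine delF_ce (c_pair (c_append (c_fst (c_snd (c_fst (c_fst (c_fst c_id)))))
      (hone (c_snd (c_fst (c_fst c_id))))) (c_append (c_snd (c_snd (c_fst (c_fst (c_fst c_id)))))
      (hone2 (c_pair (c_snd c_id) (c_snd (c_fst c_id))))))

theorem sigma_PF {A : Str} (hA : IsComp A) : Sigma11 fun r : ℕ × ℕ × List (ℕ × ℕ) =>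
    ∃ E, PF r.1 A (SI r.2.1) E ∧ E ([], r.2.2) := by
  have h1 : DelF fun (r : ℕ × ℕ × List (ℕ × ℕ)) f => PF r.1 A (SI r.2.1) (Ce f) :=
    (delF_PF hA).comp (t := fun r : ℕ × ℕ × List (ℕ × ℕ) => (r.1, r.2.1))
      (c_pair (c_fst c_id) (c_fst (c_snd c_id)))
  have h2 : DelF fun (r : ℕ × ℕ × List (ℕ × ℕ)) f => Ce f ([], r.2.2) :=
    delF_ce (c_pair (c_const []) (c_snd (c_snd c_id)))
  refine (h1.and h2).1.fn.of_iff fun r => ?_
  constructor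
  · rintro ⟨E, hE⟩
    obtain ⟨f, rfl⟩ := exists_ce E
    exact ⟨f, hE⟩
  · rintro ⟨f, hf⟩
    exact ⟨_, hf⟩

theorem gf_mem {p : List (ℕ × ℕ)} {x : ℕ × ℕ} (h : x ∈ p) :
    ∃ i < p.length, gf p i = x.1 ∧ gs p i = x.2 := by
  obtain ⟨i, hi, rfl⟩ := List.mem_iff_getElem.1 h
  refine ⟨i, hi, ?_, ?_⟩
  · unfold gf gt
    simp [hi]
  · unfold gs gt
    simp [hi]

theorem QL2.mem {A B : Str} {p : List (ℕ × ℕ)} (h : QL2 A B p) {x y : ℕ × ℕ} (hx : x ∈ p)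
    (hy : y ∈ p) : (x.1 = y.1 ↔ x.2 = y.2) ∧ ∀ i, (A i x.1 y.1 ↔ B i x.2 y.2) := by
  obtain ⟨i, hi, h1, h2⟩ := gf_mem hx
  obtain ⟨j, hj, h3, h4⟩ := gf_mem hy
  have h5 := h.1 (i, j) hi hj
  simp only [h1, h2, h3, h4] at h5
  refine ⟨h5, fun r => ?_⟩
  have h6 := h.2 (r, i, j) hi hj
  simp only [h1, h2, h3, h4] at h6
  exact h6

/-- systems along ill-founded trees give isomorphisms -/
theorem iso_of_PF {e : ℕ} {A B : Str} {E : List ℕ × List (ℕ × ℕ) → Prop} (h : PF e A B E)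
    (he : UU1 e e) {p0 : List (ℕ × ℕ)} (h0 : E ([], p0)) :
    ∃ f : ℕ ≃ ℕ, IsIso A B f ∧ ∀ x ∈ p0, f x.1 = x.2 := by
  obtain ⟨g, hg⟩ := he
  have hs : ∀ n, (List.range n).map g ++ [g n] = (List.range (n + 1)).map g := by
    intro n
    rw [List.range_succ, List.map_append]
    rfl
  have hi : ∀ p, (∃ n, E ((List.range n).map g, p)) → ∀ x ∈ p, ∀ y ∈ p,
      (x.1 = y.1 ↔ x.2 = y.2) := by
    rintro p ⟨n, hp⟩ x hx y hy
    exact ((h _ hp).1.mem hx hy).1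
  have hf : ∀ p, (∃ n, E ((List.range n).map g, p)) → ∀ c, ∃ d, ∃ n,
      E ((List.range n).map g, p ++ [(c, d)]) := by
    rintro p ⟨n, hp⟩ c
    obtain ⟨d, hd⟩ := ((h _ hp).2 (g n) (by
      show UT e e ((List.range n).map g ++ [g n])
      rw [hs]; exact hg (n + 1))).1 c
    exact ⟨d, n + 1, by rw [← hs]; exact hd⟩
  have hb : ∀ p, (∃ n, E ((List.range n).map g, p)) → ∀ d, ∃ c, ∃ n,
      E ((List.range n).map g, p ++ [(c, d)]) := by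
    rintro p ⟨n, hp⟩ c
    obtain ⟨d, hd⟩ := ((h _ hp).2 (g n) (by
      show UT e e ((List.range n).map g ++ [g n])
      rw [hs]; exact hg (n + 1))).2 c
    exact ⟨d, n + 1, by rw [← hs]; exact hd⟩
  obtain ⟨f, hf1, hf2⟩ := bf_iso (E := fun p => ∃ n, E ((List.range n).map g, p)) hi hf hb
    (p0 := p0) ⟨0, h0⟩
  refine ⟨f, fun i x y => ?_, hf1⟩
  obtain ⟨p, ⟨n, hp⟩, hm⟩ := hf2 [x, y]
  exact ((h _ hp).1.mem (hm x (by simp)) (hm y (by simp))).2 i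

/-- if no system along some well-founded tree exists -/
theorem exists_tree {A : Str} (hA : IsComp A) {P : ℕ → Prop} (hP : Sigma11 P)
    {p0 : List (ℕ × ℕ)}
    (h : ∀ m, P m → ¬ ∃ f : ℕ ≃ ℕ, IsIso A (SI m) f ∧ ∀ x ∈ p0, f x.1 = x.2) :
    ∃ e, ¬ UU1 e e ∧ ∀ m, P m → ∀ E, PF e A (SI m) E → ¬ E ([], p0) := by
  by_contra hc
  push Not at hc
  have hQ : Sigma11 fun e : ℕ => ∃ m, P m ∧ ∃ E, PF e A (SI m) E ∧ E ([], p0) := by
    refine Sigma11.ex (P := fun r : ℕ × ℕ => P r.2 ∧ ∃ E, PF r.1 A (SI r.2) E ∧ E ([], p0)) ?_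
    exact (hP.comp (c_snd c_id)).and ((sigma_PF hA).comp (f := fun r : ℕ × ℕ => (r.1, r.2, p0))
      (c_pair (c_fst c_id) (c_pair (c_snd c_id) (c_const p0))))
  obtain ⟨e, he, m, hm, E, hE, h0⟩ := overspill hQ fun e he => by
    obtain ⟨m, hm, E, hE, h0⟩ := hc e he
    exact ⟨m, hm, E, hE, h0⟩
  exact h m hm (iso_of_PF hE he h0)

end Pool.Agent.Y542
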