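import Mathlib
import Pool.Agent.Y542.Inf
import Pool.Agent.Y542.Over

set_option autoImplicit false
set_option maxHeartbeats 400000

namespace Pool.Agent.Y542

open Encodable Denumerable Nat.Partrec Pool.Agent.Helper941 Pool.Agent.Helper941.IsoProb
open Pool.Agent.Helper941.Zeta Pool.Agent.Helper941.Hyp Pool.Agent.Helper941.Dim

/-- children in the tree number `e` -/
def RR (e : ℕ) (τ σ : List ℕ) : Prop := (∃ k, τ = σ ++ [k]) ∧ UT e e τ

theorem acc_of {e : ℕ} (h : ¬ UU1 e e) : Acc (RR e) [] := by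
  by_contra hc
  apply h
  have hstep : ∀ σ : List ℕ, ¬ Acc (RR e) σ → ∃ k, UT e e (σ ++ [k]) ∧ ¬ Acc (RR e) (σ ++ [k]) := by
    intro σ hσ
    by_contra hn
    push Not at hn
    refine hσ (Acc.intro σ ?_)
    rintro _ ⟨⟨k, rfl⟩, hk⟩
    exact hn k hk
  choose! g hg1 hg2 using hstep
  let P : ℕ → List ℕ := fun n => Nat.rec [] (fun _ σ => σ ++ [g σ]) n
  have hP : ∀ n, P (n + 1) = P n ++ [g (P n)] := fun _ => rfl
  have hacc : ∀ n, ¬ Acc (RR e) (P n) := by
    intro n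
    induction n with
    | zero => exact hc
    | succ n ih => rw [hP]; exact hg2 _ ih
  have hform : ∀ n, P n = (List.range n).map fun k => g (P k) := by
    intro n
    induction n with
    | zero => rfl
    | succ n ih =>
      calc P (n + 1) = P n ++ [g (P n)] := rfl
        _ = ((List.range n).map fun k => g (P k)) ++ [g (P n)] :=
            congrArg (fun L => L ++ [g (P n)]) ih
        _ = _ := by rw [List.range_succ, List.map_append]; rfl
  have hUT : ∀ n, UT e e (P (n + 1)) := fun n => by rw [hP]; exact hg1 _ (hacc n)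
  refine ⟨fun k => g (P k), fun n => ?_⟩
  have h1 : UT e e ((List.range (n + 1)).map fun k => g (P k)) :=
    (congrArg (fun L => UT e e L) (hform (n + 1))).mp (hUT n)
  rw [ut_range] at h1
  show UT e e ((List.range n).map fun k => g (P k))
  rw [ut_range]
  intro m hm hh
  exact h1 m (by omega) (haltsIn_mono _ _ (by omega) hh)

open Classical in
/-- a literal true of the tuple `α` in `A` (as a formula in disjunctive normal form) -/
noncomputable def lt4 (A : Str) (α : List ℕ) (t i x y : ℕ) : List (List (Bool × ℕ × List ℕ)) :=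
  if x < α.length ∧ y < α.length then
    (if t = 0 then [[(decide (gt α x = gt α y), 0, [x, y])]]
    else [[(decide (A i (gt α x) (gt α y)), i + 1, [x, y])]])
  else [[]]

/-- the literal number `r` true of the tuple `α` in `A` -/
noncomputable def lt (A : Str) (α : List ℕ) (r : ℕ) : List (List (Bool × ℕ × List ℕ)) :=
  lt4 A α r.unpair.1 r.unpair.2.unpair.1 r.unpair.2.unpair.2.unpair.1
    r.unpair.2.unpair.2.unpair.2

open Classical in
/-- one member of the conjunction -/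
noncomputable def item (A : Str) (e : ℕ) (σ : List ℕ)
    (ih : ∀ τ, RR e τ σ → ∀ n, (Fin n → ℕ) → Fml n) (n : ℕ) (a : Fin n → ℕ) (i : ℕ) :
    Σ k : ℕ, Fml (n + k) :=
  if i.unpair.1 = 0 then ⟨0, Fml.qf n (lt A (List.ofFn a) i.unpair.2)⟩
  else if i.unpair.1 = 1 then
    ⟨0, if h : UT e e (σ ++ [i.unpair.2.unpair.1]) then
      Fml.disj n (fun _ => 1) (fun _ => ih _ ⟨⟨_, rfl⟩, h⟩ (n + 1)
        (Fin.append a fun _ : Fin 1 => i.unpair.2.unpair.2)) else Fml.qf n [[]]⟩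
  else
    ⟨1, if h : UT e e (σ ++ [i.unpair.2]) then
      Fml.disj (n + 1) (fun _ => 0) (fun c => ih _ ⟨⟨_, rfl⟩, h⟩ (n + 1)
        (Fin.append a fun _ : Fin 1 => c)) else Fml.qf (n + 1) [[]]⟩

/-- the formula describing the tuple `a` of `A` up to the rank of `σ` -/
noncomputable def chi (A : Str) (e : ℕ) (σ : List ℕ) (h : Acc (RR e) σ) (n : ℕ)
    (a : Fin n → ℕ) : Fml n :=
  Acc.rec (motive := fun _ _ => ∀ n, (Fin n → ℕ) → Fml n)
    (fun σ _ ih n a => Fml.conj n (fun i => (item A e σ ih n a i).1)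
      (fun i => (item A e σ ih n a i).2)) h n a

theorem chi_eq (A : Str) (e : ℕ) (σ : List ℕ) (h : Acc (RR e) σ) (n : ℕ) (a : Fin n → ℕ) :
    chi A e σ h n a = Fml.conj n
      (fun i => (item A e σ (fun τ hτ => chi A e τ (h.inv hτ)) n a i).1)
      (fun i => (item A e σ (fun τ hτ => chi A e τ (h.inv hτ)) n a i).2) := by
  cases h
  rfl

theorem append_zero {n : ℕ} (a : Fin n → ℕ) (b : Fin 0 → ℕ) :
    (Fin.append a b : Fin (n + 0) → ℕ) = a := by
  have hb : b = Fin.elim0 := Subsingleton.elim _ _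
  rw [hb]
  funext i
  exact congrFun (Fin.append_right_nil a Fin.elim0 rfl) i

theorem ofFn_append_one {n : ℕ} (a : Fin n → ℕ) (c : ℕ) :
    List.ofFn (Fin.append a fun _ : Fin 1 => c) = List.ofFn a ++ [c] := by
  rw [List.ofFn_fin_append]
  rfl

theorem gt_ofFn {n : ℕ} (a : Fin n → ℕ) (x : Fin n) : gt (List.ofFn a) x = a x := by
  unfold gt
  simp

theorem sat_lt4 {A B : Str} {n : ℕ} {a b : Fin n → ℕ} (t i x y : ℕ) :
    Sat Set.univ (toS B) (Fml.qf n (lt4 A (List.ofFn a) t i x y)) b ↔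
      ∀ (hx : x < n) (hy : y < n), (t = 0 → (a ⟨x, hx⟩ = a ⟨y, hy⟩ ↔ b ⟨x, hx⟩ = b ⟨y, hy⟩)) ∧
        (t ≠ 0 → (A i (a ⟨x, hx⟩) (a ⟨y, hy⟩) ↔ B i (b ⟨x, hx⟩) (b ⟨y, hy⟩))) := by
  classical
  by_cases hxy : x < n ∧ y < n
  · obtain ⟨hx, hy⟩ := hxy
    have gx : gt (List.ofFn a) x = a ⟨x, hx⟩ := gt_ofFn a ⟨x, hx⟩
    have gy : gt (List.ofFn a) y = a ⟨y, hy⟩ := gt_ofFn a ⟨y, hy⟩
    by_cases ht : t = 0
    · have h1 : lt4 A (List.ofFn a) t i x y = [[(decide (a ⟨x, hx⟩ = a ⟨y, hy⟩), 0, [x, y])]] := by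
        unfold lt4
        rw [List.length_ofFn, if_pos ⟨hx, hy⟩, if_pos ht, gx, gy]
      rw [h1]
      unfold Sat
      simp only [List.mem_singleton, exists_eq_left, forall_eq]
      unfold LitTrue
      constructor
      · rintro (⟨_, x', y', h1, h2⟩ | ⟨i, h1, _⟩)
        · simp only [List.cons.injEq, and_true] at h1
          obtain ⟨h3, h4⟩ := h1
          have h3' : (⟨x, hx⟩ : Fin n) = x' := Fin.ext h3
          have h4' : (⟨y, hy⟩ : Fin n) = y' := Fin.ext h4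
          subst h3' h4'
          simp only [decide_eq_true_eq] at h2
          intro _ _
          exact ⟨fun _ => h2.symm, fun h => absurd ht h⟩
        · simp at h1
      · intro h
        exact Or.inl ⟨rfl, ⟨x, hx⟩, ⟨y, hy⟩, rfl, by
          rw [decide_eq_true_eq]; exact ((h hx hy).1 ht).symm⟩
    · have h1 : lt4 A (List.ofFn a) t i x y =
          [[(decide (A i (a ⟨x, hx⟩) (a ⟨y, hy⟩)), i + 1, [x, y])]] := by
        unfold lt4
        rw [List.length_ofFn, if_pos ⟨hx, hy⟩, if_neg ht, gx, gy]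
      rw [h1]
      unfold Sat
      simp only [List.mem_singleton, exists_eq_left, forall_eq]
      unfold LitTrue
      constructor
      · rintro (⟨h1, _⟩ | ⟨j, h1, w, h2, h3⟩)
        · simp at h1
        · have hij : i = j := by
            have : i + 1 = j + 1 := h1
            omega
          subst hij
          have h4 : [x, y] = [(w 0 : ℕ), (w 1 : ℕ)] := h2
          simp only [List.cons.injEq, and_true] at h4
          have h5 : (⟨x, hx⟩ : Fin n) = w 0 := Fin.ext h4.1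
          have h6 : (⟨y, hy⟩ : Fin n) = w 1 := Fin.ext h4.2
          have h7 : B i (b (w 0)) (b (w 1)) ↔ decide (A i (a ⟨x, hx⟩) (a ⟨y, hy⟩)) = true := h3
          rw [← h5, ← h6, decide_eq_true_eq] at h7
          intro _ _
          exact ⟨fun h => absurd h ht, fun _ => h7.symm⟩
      · intro h
        refine Or.inr ⟨i, rfl, ![⟨x, hx⟩, ⟨y, hy⟩], rfl, ?_⟩
        rw [decide_eq_true_eq]
        exact ((h hx hy).2 ht).symm
  · have h1 : lt4 A (List.ofFn a) t i x y = [[]] := by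
      unfold lt4
      rw [List.length_ofFn, if_neg hxy]
    rw [h1]
    unfold Sat
    exact ⟨fun _ hx hy => absurd ⟨hx, hy⟩ hxy, fun _ => ⟨[], by simp, by simp⟩⟩

/-- truth of the literals -/
theorem sat_lt {A B : Str} {n : ℕ} {a b : Fin n → ℕ} :
    (∀ r, Sat Set.univ (toS B) (Fml.qf n (lt A (List.ofFn a) r)) b) ↔
      QL2 A B (prs n a b) := by
  have hl : (prs n a b).length = n := len_prs a b
  constructor
  · intro h
    refine ⟨fun q h1 h2 => ?_, fun q h1 h2 => ?_⟩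
    · rw [hl] at h1 h2
      have h3 := h (Nat.pair 0 (Nat.pair 0 (Nat.pair q.1 q.2)))
      unfold lt at h3
      simp only [Nat.unpair_pair] at h3
      have h4 := ((sat_lt4 _ _ _ _).1 h3 h1 h2).1 rfl
      have e1 := gf_prs a b ⟨q.1, h1⟩
      have e2 := gf_prs a b ⟨q.2, h2⟩
      have e3 := gs_prs a b ⟨q.1, h1⟩
      have e4 := gs_prs a b ⟨q.2, h2⟩
      rw [← e1, ← e2, ← e3, ← e4] at h4
      exact h4
    · rw [hl] at h1 h2
      have h3 := h (Nat.pair 1 (Nat.pair q.1 (Nat.pair q.2.1 q.2.2)))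
      unfold lt at h3
      simp only [Nat.unpair_pair] at h3
      have h4 := ((sat_lt4 _ _ _ _).1 h3 h1 h2).2 one_ne_zero
      have e1 := gf_prs a b ⟨q.2.1, h1⟩
      have e2 := gf_prs a b ⟨q.2.2, h2⟩
      have e3 := gs_prs a b ⟨q.2.1, h1⟩
      have e4 := gs_prs a b ⟨q.2.2, h2⟩
      rw [← e1, ← e2, ← e3, ← e4] at h4
      exact h4
  · rintro ⟨h1, h2⟩ r
    unfold lt
    refine (sat_lt4 _ _ _ _).2 fun hx hy => ⟨fun _ => ?_, fun _ => ?_⟩
    · have g1 := h1 (r.unpair.2.unpair.2.unpair.1, r.unpair.2.unpair.2.unpair.2)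
        (by rw [hl]; exact hx) (by rw [hl]; exact hy)
      have e1 := gf_prs a b ⟨_, hx⟩
      have e2 := gf_prs a b ⟨_, hy⟩
      have e3 := gs_prs a b ⟨_, hx⟩
      have e4 := gs_prs a b ⟨_, hy⟩
      rw [← e1, ← e2, ← e3, ← e4]
      exact g1
    · have g1 := h2 (r.unpair.2.unpair.1, r.unpair.2.unpair.2.unpair.1,
        r.unpair.2.unpair.2.unpair.2) (by rw [hl]; exact hx) (by rw [hl]; exact hy)
      have e1 := gf_prs a b ⟨_, hx⟩
      have e2 := gf_prs a b ⟨_, hy⟩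
      have e3 := gs_prs a b ⟨_, hx⟩
      have e4 := gs_prs a b ⟨_, hy⟩
      rw [← e1, ← e2, ← e3, ← e4]
      exact g1

theorem sat_triv {U : Set ℕ} {B : Struct ar2} {n : ℕ} (b : Fin n → ℕ) :
    Sat U B (Fml.qf n [[]]) b := by
  unfold Sat
  exact ⟨[], by simp, by simp⟩

theorem prs_one {n : ℕ} (a b : Fin n → ℕ) (c : ℕ) (d : Fin 1 → ℕ) :
    prs (n + 1) (Fin.append a fun _ => c) (Fin.append b d) = prs n a b ++ [(c, d 0)] := by
  rw [prs_append]
  congr 1

theorem item_zero {A : Str} {e : ℕ} {σ : List ℕ}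
    {ih : ∀ τ, RR e τ σ → ∀ n, (Fin n → ℕ) → Fml n} {n : ℕ} {a : Fin n → ℕ} (r : ℕ) :
    item A e σ ih n a (Nat.pair 0 r) = ⟨0, Fml.qf n (lt A (List.ofFn a) r)⟩ := by
  unfold item
  simp only [Nat.unpair_pair, if_true]

theorem item_one {A : Str} {e : ℕ} {σ : List ℕ}
    {ih : ∀ τ, RR e τ σ → ∀ n, (Fin n → ℕ) → Fml n} {n : ℕ} {a : Fin n → ℕ} (k c : ℕ)
    (h : UT e e (σ ++ [k])) :
    item A e σ ih n a (Nat.pair 1 (Nat.pair k c)) = ⟨0, Fml.disj n (fun _ => 1)
      (fun _ => ih (σ ++ [k]) ⟨⟨_, rfl⟩, h⟩ (n + 1) (Fin.append a fun _ : Fin 1 => c))⟩ := by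
  unfold item
  simp only [Nat.unpair_pair, one_ne_zero, if_false, if_true, h, dif_pos]

theorem item_two {A : Str} {e : ℕ} {σ : List ℕ}
    {ih : ∀ τ, RR e τ σ → ∀ n, (Fin n → ℕ) → Fml n} {n : ℕ} {a : Fin n → ℕ} (k : ℕ)
    (h : UT e e (σ ++ [k])) :
    item A e σ ih n a (Nat.pair 2 k) = ⟨1, Fml.disj (n + 1) (fun _ => 0)
      (fun c => ih (σ ++ [k]) ⟨⟨_, rfl⟩, h⟩ (n + 1) (Fin.append a fun _ : Fin 1 => c))⟩ := by
  unfold item
  simp only [Nat.unpair_pair, show (2 : ℕ) ≠ 0 by decide, show (2 : ℕ) ≠ 1 by decide, if_false,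
    h, dif_pos]

/-- truth of a member of a conjunction -/
def SI1 (B : Str) {n : ℕ} (x : Σ k : ℕ, Fml (n + k)) (b : Fin n → ℕ) : Prop :=
  ∀ c : Fin x.1 → ℕ, Sat Set.univ (toS B) x.2 (Fin.append b c)

theorem sat_chi {A B : Str} {e : ℕ} {σ : List ℕ} {h : Acc (RR e) σ} {n : ℕ} {a b : Fin n → ℕ} :
    Sat Set.univ (toS B) (chi A e σ h n a) b ↔
      ∀ i, SI1 B (item A e σ (fun τ hτ => chi A e τ (h.inv hτ)) n a i) b := by
  rw [chi_eq]
  unfold Sat
  exact forall_congr' fun i => forall_congr' fun c => ⟨fun h => h fun _ => Set.mem_univ _,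
    fun h _ => h⟩

theorem si1_qf {B : Str} {n : ℕ} {φ : Fml n} {b : Fin n → ℕ} :
    SI1 B (⟨0, φ⟩ : Σ k : ℕ, Fml (n + k)) b ↔ Sat Set.univ (toS B) φ b := by
  unfold SI1
  simp only
  constructor
  · intro h
    have h1 := h Fin.elim0
    rw [append_zero] at h1
    exact h1
  · intro h c
    rw [append_zero]
    exact h

theorem fun_one (c : Fin 1 → ℕ) : c = fun _ => c 0 := by
  funext j
  congr 1
  exact Subsingleton.elim _ _

theorem si1_one {B : Str} {n : ℕ} {φ : Fml (n + 1)} {b : Fin n → ℕ} :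
    SI1 B (⟨1, φ⟩ : Σ k : ℕ, Fml (n + k)) b ↔
      ∀ d : ℕ, Sat Set.univ (toS B) φ (Fin.append b fun _ : Fin 1 => d) := by
  unfold SI1
  constructor
  · intro h d
    exact h fun _ => d
  · intro h c
    rw [fun_one c]
    exact h _

theorem sat_disj {U : Set ℕ} {B : Struct ar2} {n : ℕ} {k : ℕ → ℕ} {φ : (i : ℕ) → Fml (n + k i)}
    {b : Fin n → ℕ} : Sat U B (Fml.disj n k φ) b ↔
      ∃ i, ∃ c : Fin (k i) → ℕ, (∀ j, c j ∈ U) ∧ Sat U B (φ i) (Fin.append b c) := by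
  rw [Sat]

theorem sat_conj {U : Set ℕ} {B : Struct ar2} {n : ℕ} {k : ℕ → ℕ} {φ : (i : ℕ) → Fml (n + k i)}
    {b : Fin n → ℕ} : Sat U B (Fml.conj n k φ) b ↔
      ∀ i, ∀ c : Fin (k i) → ℕ, (∀ j, c j ∈ U) → Sat U B (φ i) (Fin.append b c) := by
  rw [Sat]

theorem sat_disj_one {B : Str} {n : ℕ} {φ : Fml (n + 1)} {b : Fin n → ℕ} :
    Sat Set.univ (toS B) (Fml.disj n (fun _ => 1) fun _ => φ) b ↔
      ∃ d : ℕ, Sat Set.univ (toS B) φ (Fin.append b fun _ : Fin 1 => d) := by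
  rw [sat_disj]
  constructor
  · rintro ⟨_, d, _, hd⟩
    refine ⟨d 0, ?_⟩
    have h1 := fun_one d
    rw [← h1]
    exact hd
  · rintro ⟨d, hd⟩
    exact ⟨0, fun _ => d, fun _ => Set.mem_univ _, hd⟩

theorem sat_disj_zero {B : Str} {n : ℕ} {φ : ℕ → Fml n} {b : Fin n → ℕ} :
    Sat Set.univ (toS B) (Fml.disj n (fun _ => 0) fun i => φ i) b ↔
      ∃ i, Sat Set.univ (toS B) (φ i) b := by
  rw [sat_disj]
  constructor
  · rintro ⟨i, z, _, hd⟩
    refine ⟨i, ?_⟩
    rw [append_zero] at hd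
    exact hd
  · rintro ⟨i, hd⟩
    refine ⟨i, Fin.elim0, fun _ => Set.mem_univ _, ?_⟩
    rw [append_zero]
    exact hd

/-- the formulas say what they should -/
theorem sat_chi_iff {A B : Str} {e : ℕ} {σ : List ℕ} {h : Acc (RR e) σ} {n : ℕ}
    {a b : Fin n → ℕ} :
    Sat Set.univ (toS B) (chi A e σ h n a) b ↔ QL2 A B (prs n a b) ∧
      ∀ k (hk : UT e e (σ ++ [k])),
        (∀ c, ∃ d, Sat Set.univ (toS B) (chi A e (σ ++ [k]) (h.inv ⟨⟨k, rfl⟩, hk⟩) (n + 1)
          (Fin.append a fun _ : Fin 1 => c)) (Fin.append b fun _ : Fin 1 => d)) ∧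
        (∀ d, ∃ c, Sat Set.univ (toS B) (chi A e (σ ++ [k]) (h.inv ⟨⟨k, rfl⟩, hk⟩) (n + 1)
          (Fin.append a fun _ : Fin 1 => c)) (Fin.append b fun _ : Fin 1 => d)) := by
  rw [sat_chi]
  constructor
  · intro H
    refine ⟨sat_lt.1 fun r => ?_, fun k hk => ⟨fun c => ?_, ?_⟩⟩
    · have h1 := H (Nat.pair 0 r)
      rw [item_zero, si1_qf] at h1
      exact h1
    · have h1 := H (Nat.pair 1 (Nat.pair k c))
      rw [item_one k c hk, si1_qf, sat_disj_one] at h1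
      exact h1
    · have h1 := H (Nat.pair 2 k)
      rw [item_two k hk, si1_one] at h1
      intro d
      have h2 := h1 d
      rw [sat_disj_zero] at h2
      exact h2
  · rintro ⟨h1, h2⟩ i
    unfold item
    by_cases h0 : i.unpair.1 = 0
    · rw [if_pos h0, si1_qf]
      exact sat_lt.2 h1 _
    · rw [if_neg h0]
      by_cases hi : i.unpair.1 = 1
      · rw [if_pos hi, si1_qf]
        split_ifs with hU
        · rw [sat_disj_one]
          exact (h2 _ hU).1 _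
        · exact sat_triv _
      · rw [if_neg hi, si1_one]
        intro d
        split_ifs with hU
        · rw [sat_disj_zero]
          exact (h2 _ hU).2 d
        · exact sat_triv _

/-- the formula is true of its tuple -/
theorem chi_self (A : Str) (e : ℕ) (σ : List ℕ) (h : Acc (RR e) σ) : ∀ (n : ℕ) (a : Fin n → ℕ),
    Sat Set.univ (toS A) (chi A e σ h n a) a := by
  induction h with
  | intro σ h ih =>
    intro n a
    rw [sat_chi_iff]
    have hq : QL2 A A (prs n a a) := by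
      have e1 : ∀ i, gf (prs n a a) i = gs (prs n a a) i := by
        intro i
        unfold gf gs prs
        congr 1
        rw [List.map_ofFn, List.map_ofFn]
        rfl
      refine ⟨fun q _ _ => ?_, fun q _ _ => ?_⟩
      · rw [e1, e1]
      · rw [e1, e1]
    exact ⟨hq, fun k hk => ⟨fun c => ⟨c, ih _ ⟨⟨k, rfl⟩, hk⟩ _ _⟩,
      fun d => ⟨d, ih _ ⟨⟨k, rfl⟩, hk⟩ _ _⟩⟩⟩

/-- the formulas form a back-and-forth system -/
theorem pf_chi (A B : Str) (e : ℕ) : PF e A B fun q => ∃ (n : ℕ) (a b : Fin n → ℕ)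
    (h : Acc (RR e) q.1), prs n a b = q.2 ∧ Sat Set.univ (toS B) (chi A e q.1 h n a) b := by
  rintro ⟨σ, p⟩ ⟨n, a, b, h, rfl, hs⟩
  simp only at h hs ⊢
  rw [sat_chi_iff] at hs
  refine ⟨hs.1, fun k hk => ⟨fun c => ?_, fun d => ?_⟩⟩
  · obtain ⟨d, hd⟩ := (hs.2 k hk).1 c
    exact ⟨d, n + 1, _, _, h.inv ⟨⟨k, rfl⟩, hk⟩, prs_one a b c (fun _ => d), hd⟩
  · obtain ⟨c, hd⟩ := (hs.2 k hk).2 d
    exact ⟨c, n + 1, _, _, h.inv ⟨⟨k, rfl⟩, hk⟩, prs_one a b c (fun _ => d), hd⟩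

end Pool.Agent.Y542
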