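import Mathlib
import Pool.Agent.Y542.Chi

set_option autoImplicit false
set_option maxHeartbeats 400000

namespace Pool.Agent.Y542

open Encodable Denumerable Nat.Partrec Pool.Agent.Helper941 Pool.Agent.Helper941.IsoProb
open Pool.Agent.Helper941.Zeta Pool.Agent.Helper941.Hyp Pool.Agent.Helper941.Dim

/-- codes of the formulas -/
def Jc (c : Code) (q : List ℕ × List ℕ) : ℕ := Nat.pair 2 (encode (Code.curry c (encode q)))

variable {α : Type} [Primcodable α]

theorem c_Jc {c : α → Code} {q : α → List ℕ × List ℕ} (hc : Computable c) (hq : Computable q) :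
    Computable fun a => Jc (c a) (q a) :=
  c_npair (c_const 2) (Computable.encode.comp ((Code.primrec₂_curry.to_comp).comp hc
    (Computable.encode.comp hq)))

theorem exists_G : ∃ G : Code, ∀ (c : Code) (q : List ℕ × List ℕ) (x : ℕ),
    Code.eval (Code.curry G (encode (c, q))) x = Part.some (Nat.pair 0 (Jc c (q.1, q.2 ++ [x]))) := by
  have hf : Computable fun p : (Code × (List ℕ × List ℕ)) × ℕ =>
      Nat.pair 0 (Jc p.1.1 (p.1.2.1, p.1.2.2 ++ [p.2])) := by
    have hone : Computable fun p : (Code × (List ℕ × List ℕ)) × ℕ => [p.2] :=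
      Computable.list_cons.comp (c_snd c_id) (c_const [])
    exact c_npair (c_const 0) (c_Jc (c_fst (c_fst c_id)) (c_pair (c_fst (c_snd (c_fst c_id)))
      (c_append (c_snd (c_snd (c_fst c_id))) hone)))
  obtain ⟨G, hG⟩ := Code.exists_code.1 hf.partrec
  refine ⟨G, fun c q x => ?_⟩
  rw [Code.eval_curry, hG]
  have : decode (α := (Code × (List ℕ × List ℕ)) × ℕ) (Nat.pair (encode (c, q)) x) =
      some ((c, q), x) := by
    have h2 : Nat.pair (encode (c, q)) x = encode ((c, q), x) := rfl
    rw [h2, encodek]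
  simp only [this]
  simp

open Classical in
/-- the function enumerating the members of the conjunction with the given number -/
noncomputable def Fo (A : Str) (e : ℕ) (G c : Code) (q : List ℕ × List ℕ) (i : ℕ) : ℕ :=
  if i.unpair.1 = 0 then Nat.pair 0 (Nat.pair 0 (encode (lt A q.2 i.unpair.2)))
  else if i.unpair.1 = 1 then
    Nat.pair 0 (if UT e e (q.1 ++ [i.unpair.2.unpair.1]) then
      Nat.pair 1 (encode (Code.const (Nat.pair 1 (Jc c (q.1 ++ [i.unpair.2.unpair.1],
        q.2 ++ [i.unpair.2.unpair.2])))))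
      else Nat.pair 0 (encode ([[]] : List (List (Bool × ℕ × List ℕ)))))
  else Nat.pair 1 (if UT e e (q.1 ++ [i.unpair.2]) then
      Nat.pair 1 (encode (Code.curry G (encode (c, q.1 ++ [i.unpair.2], q.2))))
      else Nat.pair 0 (encode ([[]] : List (List (Bool × ℕ × List ℕ)))))

theorem c_lt {A : Str} (hA : IsComp A) {l : α → List ℕ} {r : α → ℕ} (hl : Computable l)
    (hr : Computable r) : Computable fun a => lt A (l a) (r a) := by
  classical
  unfold lt lt4
  have ht : Computable fun a => (r a).unpair.1 := c_up1 hr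
  have hi : Computable fun a => (r a).unpair.2.unpair.1 := c_up1 (c_up2 hr)
  have hx : Computable fun a => (r a).unpair.2.unpair.2.unpair.1 := c_up1 (c_up2 (c_up2 hr))
  have hy : Computable fun a => (r a).unpair.2.unpair.2.unpair.2 := c_up2 (c_up2 (c_up2 hr))
  have hle : Computable fun a => (l a).length := Computable.list_length.comp hl
  have hxy : Computable fun a => [(r a).unpair.2.unpair.2.unpair.1,
      (r a).unpair.2.unpair.2.unpair.2] :=
    Computable.list_cons.comp hx (Computable.list_cons.comp hy (c_const []))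
  have hw : ∀ {f : α → Bool × ℕ × List ℕ}, Computable f → Computable fun a => [[f a]] :=
    fun hf => Computable.list_cons.comp (Computable.list_cons.comp hf (c_const [])) (c_const [])
  refine c_ite (p_and (p_lt hx hle) (p_lt hy hle)) (c_ite (p_eq ht (c_const 0)) ?_ ?_)
    (c_const [[]])
  · refine hw (c_pair ((c_decide (p_eq (c_gt hl hx) (c_gt hl hy))).of_eq fun a => ?_)
      (c_pair (c_const 0) hxy))
    congr
  · refine hw (c_pair (c_decide ?_) (c_pair (c_succ hi) hxy))
    exact computablePred_comp (P := fun q : ℕ × ℕ × ℕ => A q.1 q.2.1 q.2.2) hA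
      (c_pair hi (c_pair (c_gt hl hx) (c_gt hl hy)))

theorem c_Fo {A : Str} (hA : IsComp A) (e : ℕ) (G : Code) {c : α → Code}
    {q : α → List ℕ × List ℕ} {i : α → ℕ} (hc : Computable c) (hq : Computable q)
    (hi : Computable i) : Computable fun a => Fo A e G (c a) (q a) (i a) := by
  classical
  unfold Fo
  have hone : ∀ {f : α → ℕ}, Computable f → Computable fun a => [f a] :=
    fun hf => Computable.list_cons.comp hf (c_const [])
  have q1 : Computable fun a => (q a).1 := c_fst hq
  have q2 : Computable fun a => (q a).2 := c_snd hq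
  have i1 : Computable fun a => (i a).unpair.1 := c_up1 hi
  have i2 : Computable fun a => (i a).unpair.2 := c_up2 hi
  have i21 : Computable fun a => (i a).unpair.2.unpair.1 := c_up1 i2
  have i22 : Computable fun a => (i a).unpair.2.unpair.2 := c_up2 i2
  have e1 : Computable fun a => (q a).1 ++ [(i a).unpair.2.unpair.1] := c_append q1 (hone i21)
  have e2 : Computable fun a => (q a).1 ++ [(i a).unpair.2] := c_append q1 (hone i2)
  have u1 : ComputablePred fun a => UT e e ((q a).1 ++ [(i a).unpair.2.unpair.1]) :=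
    computablePred_comp p_UT (c_pair (c_const e) (c_pair (c_const e) e1))
  have u2 : ComputablePred fun a => UT e e ((q a).1 ++ [(i a).unpair.2]) :=
    computablePred_comp p_UT (c_pair (c_const e) (c_pair (c_const e) e2))
  refine c_ite (p_eq i1 (c_const 0)) (c_npair (c_const 0) (c_npair (c_const 0)
    (Computable.encode.comp (c_lt hA q2 i2)))) (c_ite (p_eq i1 (c_const 1))
    (c_npair (c_const 0) (c_ite u1 (c_npair (c_const 1) (Computable.encode.comp
      (Code.primrec_const.to_comp.comp (c_npair (c_const 1) (c_Jc hc (c_pair e1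
        (c_append q2 (hone i22)))))))) (c_const _)))
    (c_npair (c_const 1) (c_ite u2 (c_npair (c_const 1) (Computable.encode.comp
      ((Code.primrec₂_curry.to_comp).comp (c_const G) (Computable.encode.comp (c_pair hc
        (c_pair e2 q2)))))) (c_const _))))

theorem exists_c0 {A : Str} (hA : IsComp A) (e : ℕ) (G : Code) : ∃ c0 : Code,
    ∀ (q : List ℕ × List ℕ) (i : ℕ),
      Code.eval (Code.curry c0 (encode q)) i = Part.some (Fo A e G c0 q i) := by
  have hf : Partrec₂ fun (c : Code) (x : ℕ) =>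
      (Part.some (Fo A e G c (ofNat (List ℕ × List ℕ) x.unpair.1) x.unpair.2) : Part ℕ) := by
    refine Computable.partrec (c_Fo (α := Code × ℕ) (c := fun p => p.1)
      (q := fun p => ofNat (List ℕ × List ℕ) p.2.unpair.1) (i := fun p => p.2.unpair.2)
      hA e G (c_fst c_id) ?_ (c_up2 (c_snd c_id)))
    exact (Computable.ofNat (List ℕ × List ℕ)).comp (c_up1 (c_snd c_id))
  obtain ⟨c0, hc0⟩ := Code.fixed_point₂ hf
  refine ⟨c0, fun q i => ?_⟩
  rw [Code.eval_curry, hc0]
  simp only [Nat.unpair_pair, ofNat_encode]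

/-- codes of members of conjunctions -/
def ItemCode {n : ℕ} (x : Σ k : ℕ, Fml (n + k)) (v : ℕ) : Prop :=
  ∃ d, v = Nat.pair x.1 d ∧ IsCode x.2 d

theorem isCode_conj {n : ℕ} {f : ℕ → Σ k : ℕ, Fml (n + k)} {c : ℕ} {g : Code} {v : ℕ → ℕ}
    (hc : c = Nat.pair 2 (encode g)) (hg : ∀ i, Code.eval g i = Part.some (v i))
    (h : ∀ i, ItemCode (f i) (v i)) :
    IsCode (Fml.conj n (fun i => (f i).1) fun i => (f i).2) c := by
  subst hc
  rw [IsCode]
  refine ⟨by rw [Nat.unpair_pair], fun i => ?_⟩
  obtain ⟨d, hd, h1⟩ := h i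
  refine ⟨d, ?_, h1⟩
  rw [Nat.unpair_pair, ofNat_encode, hg, hd]

theorem isCode_disj {n : ℕ} {f : ℕ → Σ k : ℕ, Fml (n + k)} {c : ℕ} {g : Code} {v : ℕ → ℕ}
    (hc : c = Nat.pair 1 (encode g)) (hg : ∀ i, Code.eval g i = Part.some (v i))
    (h : ∀ i, ItemCode (f i) (v i)) :
    IsCode (Fml.disj n (fun i => (f i).1) fun i => (f i).2) c := by
  subst hc
  rw [IsCode]
  refine ⟨by rw [Nat.unpair_pair], fun i => ?_⟩
  obtain ⟨d, hd, h1⟩ := h i
  refine ⟨d, ?_, h1⟩
  rw [Nat.unpair_pair, ofNat_encode, hg, hd]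

theorem isCode_qf {n : ℕ} (θ : List (List (Bool × ℕ × List ℕ))) :
    IsCode (Fml.qf n θ) (Nat.pair 0 (encode θ)) := by
  rw [IsCode]

theorem isCode_chi {A : Str} {e : ℕ} {G c0 : Code}
    (hG : ∀ (c : Code) (q : List ℕ × List ℕ) (x : ℕ), Code.eval (Code.curry G (encode (c, q))) x =
      Part.some (Nat.pair 0 (Jc c (q.1, q.2 ++ [x]))))
    (hc : ∀ (q : List ℕ × List ℕ) (i : ℕ),
      Code.eval (Code.curry c0 (encode q)) i = Part.some (Fo A e G c0 q i))
    (σ : List ℕ) (h : Acc (RR e) σ) : ∀ (n : ℕ) (a : Fin n → ℕ),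
    IsCode (chi A e σ h n a) (Jc c0 (σ, List.ofFn a)) := by
  induction h with
  | intro σ h ih =>
    intro n a
    rw [chi_eq]
    refine isCode_conj (f := fun i => item A e σ
      (fun τ hτ => chi A e τ ((Acc.intro σ h).inv hτ)) n a i) rfl (hc _) fun i => ?_
    unfold item Fo
    by_cases h0 : i.unpair.1 = 0
    · simp only [if_pos h0]
      exact ⟨_, rfl, isCode_qf _⟩
    · simp only [if_neg h0]
      by_cases h1 : i.unpair.1 = 1
      · simp only [if_pos h1]
        refine ⟨_, rfl, ?_⟩
        dsimp only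
        split_ifs with hU
        · refine isCode_disj (n := n) (f := fun _ => ⟨1, chi A e _ _ (n + 1) _⟩)
            (v := fun _ => Nat.pair 1 (Jc c0 (σ ++ [i.unpair.2.unpair.1],
              List.ofFn a ++ [i.unpair.2.unpair.2]))) rfl
            (fun j => Code.eval_const _ _) fun j => ⟨_, rfl, ?_⟩
          have := ih _ ⟨⟨_, rfl⟩, hU⟩ (n + 1) (Fin.append a fun _ : Fin 1 => i.unpair.2.unpair.2)
          rw [ofFn_append_one] at this
          exact this
        · exact isCode_qf _
      · simp only [if_neg h1]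
        refine ⟨_, rfl, ?_⟩
        dsimp only
        split_ifs with hU
        · refine isCode_disj (n := n + 1) (f := fun c => ⟨0, chi A e _ _ (n + 1)
            (Fin.append a fun _ : Fin 1 => c)⟩) rfl (hG _ _) fun c => ⟨_, rfl, ?_⟩
          have := ih _ ⟨⟨_, rfl⟩, hU⟩ (n + 1) (Fin.append a fun _ : Fin 1 => c)
          rw [ofFn_append_one] at this
          exact this
        · exact isCode_qf _

theorem compFml_chi {A : Str} (hA : IsComp A) (e : ℕ) (σ : List ℕ) (h : Acc (RR e) σ) (n : ℕ)
    (a : Fin n → ℕ) : CompFml (chi A e σ h n a) := by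
  obtain ⟨G, hG⟩ := exists_G
  obtain ⟨c0, hc0⟩ := exists_c0 hA e G
  exact ⟨_, isCode_chi hG hc0 σ h n a⟩

end Pool.Agent.Y542
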