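import Mathlib
import Pool.Agent.Helper941.Hyp.Cls
import Pool.Agent.Y542.RankDel

set_option autoImplicit false
set_option maxHeartbeats 400000

namespace Pool.Agent.Y542

open Encodable Denumerable Nat.Partrec Pool.Agent.Helper941 Pool.Agent.Helper941.IsoProb
open Pool.Agent.Helper941.Zeta Pool.Agent.Helper941.Hyp Pool.Agent.Helper941.Dim

/-- `e` is an index of a structure computably isomorphic to `B` -/
def CI (B : Str) (e : ℕ) : Prop := Idx e ∧ ∃ f : ℕ ≃ ℕ, IsIso B (SI e) f ∧ Computable f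

def CIP (B : Str) (e k : ℕ) : Prop :=
  (∀ x, ∃ y, EvE k x y) ∧ (∀ y, ∃ x, EvE k x y) ∧
  (∀ q : ℕ × ℕ × ℕ, EvE k q.1 q.2.2 → EvE k q.2.1 q.2.2 → q.1 = q.2.1) ∧
  (∀ q : ℕ × ℕ × ℕ × ℕ × ℕ, EvE k q.2.1 q.2.2.2.1 → EvE k q.2.2.1 q.2.2.2.2 →
    (B q.1 q.2.1 q.2.2.1 ↔ SI e q.1 q.2.2.2.1 q.2.2.2.2))

theorem ci_iff {B : Str} {e : ℕ} : CI B e ↔ Idx e ∧ ∃ k, CIP B e k := by
  constructor
  · rintro ⟨h1, f, h3, hfc⟩
    obtain ⟨c, hc⟩ := Code.exists_code.1 (Partrec.nat_iff.1 hfc.partrec)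
    have hev : ∀ x y, EvE (encode c) x y ↔ f x = y := by
      intro x y
      unfold EvE
      rw [ofNat_encode, hc]
      exact Part.some_inj
    refine ⟨h1, encode c, fun x => ⟨f x, (hev _ _).2 rfl⟩,
      fun y => ⟨f.symm y, (hev _ _).2 (by simp)⟩, fun q hq1 hq2 => ?_,
      fun q hq1 hq2 => ?_⟩
    · rw [hev] at hq1 hq2
      exact f.injective (hq1.trans hq2.symm)
    · rw [hev] at hq1 hq2
      rw [← hq1, ← hq2]
      exact h3 _ _ _
  · rintro ⟨h1, k, h3, h4, h5, h6⟩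
    choose f hf using h3
    have hbij : Function.Bijective f := by
      constructor
      · intro x y hxy
        refine h5 (x, y, f x) (hf x) ?_
        show EvE k y (f x)
        rw [hxy]
        exact hf y
      · intro y
        obtain ⟨x, hx⟩ := h4 y
        refine ⟨x, ?_⟩
        exact Part.some_inj.1 ((hf x).symm.trans hx)
    refine ⟨h1, Equiv.ofBijective f hbij, fun i x y => ?_, ?_⟩
    · exact h6 (i, x, y, f x, f y) (hf x) (hf y)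
    · have h8 : Partrec fun x : ℕ => Code.eval (ofNat Code k) x :=
        Code.eval_part.comp (Computable.const _) Computable.id
      exact h8.of_eq fun x => hf x

theorem delta_CI {B : Str} (hB : IsComp B) : Delta11 (CI B) := by
  have h3 : Delta11 fun r : ℕ × ℕ => ∀ x, ∃ y, EvE r.2 x y :=
    Delta11.all (P := fun s : (ℕ × ℕ) × ℕ => ∃ y, EvE s.1.2 s.2 y)
      (Delta11.ex (P := fun s : ((ℕ × ℕ) × ℕ) × ℕ => EvE s.1.1.2 s.1.2 s.2)
        (delta_EvE (c_snd (c_fst (c_fst c_id))) (c_snd (c_fst c_id)) (c_snd c_id)))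
  have h4 : Delta11 fun r : ℕ × ℕ => ∀ y, ∃ x, EvE r.2 x y :=
    Delta11.all (P := fun s : (ℕ × ℕ) × ℕ => ∃ x, EvE s.1.2 x s.2)
      (Delta11.ex (P := fun s : ((ℕ × ℕ) × ℕ) × ℕ => EvE s.1.1.2 s.2 s.1.2)
        (delta_EvE (c_snd (c_fst (c_fst c_id))) (c_snd c_id) (c_snd (c_fst c_id))))
  have h5 : Delta11 fun r : ℕ × ℕ => ∀ q : ℕ × ℕ × ℕ,
      EvE r.2 q.1 q.2.2 → EvE r.2 q.2.1 q.2.2 → q.1 = q.2.1 := by
    refine Delta11.all' (P := fun s : (ℕ × ℕ) × ℕ × ℕ × ℕ =>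
      EvE s.1.2 s.2.1 s.2.2.2 → EvE s.1.2 s.2.2.1 s.2.2.2 → s.2.1 = s.2.2.1) ?_
    have hk : Computable fun s : (ℕ × ℕ) × ℕ × ℕ × ℕ => s.1.2 := c_snd (c_fst c_id)
    have ha : Computable fun s : (ℕ × ℕ) × ℕ × ℕ × ℕ => s.2.1 := c_fst (c_snd c_id)
    have hb : Computable fun s : (ℕ × ℕ) × ℕ × ℕ × ℕ => s.2.2.1 :=
      c_fst (c_snd (c_snd c_id))
    have hc : Computable fun s : (ℕ × ℕ) × ℕ × ℕ × ℕ => s.2.2.2 :=
      c_snd (c_snd (c_snd c_id))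
    exact (delta_EvE hk ha hc).imp ((delta_EvE hk hb hc).imp
      (Delta11.of_computable (p_eq ha hb)))
  have h6 : Delta11 fun r : ℕ × ℕ => ∀ q : ℕ × ℕ × ℕ × ℕ × ℕ,
      EvE r.2 q.2.1 q.2.2.2.1 → EvE r.2 q.2.2.1 q.2.2.2.2 →
      (B q.1 q.2.1 q.2.2.1 ↔ SI r.1 q.1 q.2.2.2.1 q.2.2.2.2) := by
    refine Delta11.all' (P := fun s : (ℕ × ℕ) × ℕ × ℕ × ℕ × ℕ × ℕ =>
      EvE s.1.2 s.2.2.1 s.2.2.2.2.1 → EvE s.1.2 s.2.2.2.1 s.2.2.2.2.2 →
      (B s.2.1 s.2.2.1 s.2.2.2.1 ↔ SI s.1.1 s.2.1 s.2.2.2.2.1 s.2.2.2.2.2)) ?_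
    have hk : Computable fun s : (ℕ × ℕ) × ℕ × ℕ × ℕ × ℕ × ℕ => s.1.2 :=
      c_snd (c_fst c_id)
    have he : Computable fun s : (ℕ × ℕ) × ℕ × ℕ × ℕ × ℕ × ℕ => s.1.1 :=
      c_fst (c_fst c_id)
    have hi : Computable fun s : (ℕ × ℕ) × ℕ × ℕ × ℕ × ℕ × ℕ => s.2.1 :=
      c_fst (c_snd c_id)
    have hx : Computable fun s : (ℕ × ℕ) × ℕ × ℕ × ℕ × ℕ × ℕ => s.2.2.1 :=
      c_fst (c_snd (c_snd c_id))
    have hy : Computable fun s : (ℕ × ℕ) × ℕ × ℕ × ℕ × ℕ × ℕ => s.2.2.2.1 :=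
      c_fst (c_snd (c_snd (c_snd c_id)))
    have hx' : Computable fun s : (ℕ × ℕ) × ℕ × ℕ × ℕ × ℕ × ℕ =>
        s.2.2.2.2.1 := c_fst (c_snd (c_snd (c_snd (c_snd c_id))))
    have hy' : Computable fun s : (ℕ × ℕ) × ℕ × ℕ × ℕ × ℕ × ℕ =>
        s.2.2.2.2.2 := c_snd (c_snd (c_snd (c_snd (c_snd c_id))))
    have hR : ComputablePred fun s : (ℕ × ℕ) × ℕ × ℕ × ℕ × ℕ × ℕ =>
        B s.2.1 s.2.2.1 s.2.2.2.1 :=
      computablePred_comp (P := fun q : ℕ × ℕ × ℕ => B q.1 q.2.1 q.2.2)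
        hB (c_pair hi (c_pair hx hy))
    exact (delta_EvE hk hx hx').imp ((delta_EvE hk hy hy').imp
      ((Delta11.of_computable hR).iff (delta_SI he hi hx' hy')))
  have h8 : Delta11 fun r : ℕ × ℕ => CIP B r.1 r.2 := h3.and (h4.and (h5.and h6))
  exact (delta_Idx.and h8.ex).of_iff fun p => ci_iff

/-- the structure -/
def M0 : Str := MS fun _ => False

theorem m0_comp : IsComp M0 := by
  have h := ms_comp (β := ℕ) (P := fun _ _ => False) (p_not (p_eq (c_const 0) (c_const 0))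
    |>.of_eq fun q => by simp)
  exact computablePred_comp h (c_pair (c_const 0) (c_pair (c_fst c_id) (c_snd c_id)))

/-- automorphisms given by flows -/
theorem aut_of_flow {t : ℕ → ℕ} (hF : Flow pH t) : ∃ f : ℕ ≃ ℕ, IsIso M0 M0 f ∧
    ∀ x, el pH (f x) = sh t (el pH x) := by
  have h0 : PIso pH (As pH false) (idx pH) := by
    refine ⟨fun i p q _ hp hq => ?_, fun p q hp hq h => ?_, fun z => ?_⟩
    · show _ ↔ Rel pH false i (el pH (idx pH p)) (el pH (idx pH q))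
      rw [el_idx hp, el_idx hq]
    · rw [← el_idx hp, h, el_idx hq]
    · exact ⟨el pH z, el_valid _ z, idx_el _ z⟩
  obtain ⟨f, h1, h2⟩ := (h0.shift hF).toIso
  have h3 : ∀ x, el pH (f x) = sh t (el pH x) := by
    intro x
    rw [h2, el_idx (sh_valid hF (el_valid _ x))]
  refine ⟨f, fun i x y => ?_, h3⟩
  by_cases hi : i = 0
  · subst hi
    unfold M0
    rw [ms_zero, ms_zero]
    simp
  · unfold M0
    rw [ms_ne hi, ms_ne hi]
    exact h1 i x y hi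

theorem flow_of_aut {f : ℕ ≃ ℕ} (hf : IsIso M0 M0 f) :
    ∃ t, Flow pH t ∧ ∀ x, el pH (f x) = sh t (el pH x) := by
  refine aut_shift (pa := pH) (f := f) fun i x y hi => ?_
  have := hf i x y
  unfold M0 at this
  rw [ms_ne hi, ms_ne hi] at this
  exact this

/-- `M0` is computably categorical -/
theorem m0_cc {B : Str} (hB : IsComp B) {f : ℕ ≃ ℕ} (hf : IsIso M0 B f) :
    ∃ h : ℕ ≃ ℕ, IsIso M0 B h ∧ Computable h := by
  have h1 : RedIso (con HT prn).pa B f := by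
    intro i x y hi
    have := hf i x y
    unfold M0 at this
    rw [ms_ne hi] at this
    exact this
  obtain ⟨h, h2, h3⟩ := cc p_HT c_prn th_HT hB h1
  refine ⟨h, fun i x y => ?_, h3⟩
  by_cases hi : i = 0
  · subst hi
    have h4 := hf 0 (f.symm (h x)) (f.symm (h y))
    unfold M0 at h4 ⊢
    rw [ms_zero] at h4 ⊢
    simp only [Equiv.apply_symm_apply] at h4
    rw [← h4]
    simp
  · unfold M0
    rw [ms_ne hi]
    exact h2 i x y hi

theorem orbit_iff_XA {u : ℕ} (hu : 1 ≤ u) (hp : pH u = 0) :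
    Orbit (toS M0) 1 (fun _ => idx pH (Nat.pair 0 0)) (fun _ => idx pH (Nat.pair 0 (2 ^ u))) ↔
      XA u := by
  have hv : Valid pH (Nat.pair 0 (2 ^ u)) := by
    intro w hw
    rw [Nat.unpair_pair] at hw ⊢
    rw [Nat.testBit_two_pow] at hw
    have : u = w := by simpa using hw
    subst this
    exact ⟨hu, hp⟩
  constructor
  · rintro ⟨f, h1, h2⟩
    obtain ⟨t, hF, ht⟩ := flow_of_aut (f := f) fun i x y => h1 i ![x, y]
    refine ⟨t, hF, ?_⟩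
    have h3 := ht (idx pH (Nat.pair 0 0))
    have h4 : f (idx pH (Nat.pair 0 0)) = idx pH (Nat.pair 0 (2 ^ u)) := h2 0
    rw [h4, el_idx hv, el_idx (valid_base _ 0)] at h3
    unfold sh at h3
    rw [Nat.unpair_pair, Nat.zero_xor] at h3
    exact (Nat.pair_eq_pair.1 h3).2.symm
  · rintro ⟨t, hF, ht⟩
    obtain ⟨f, h1, h2⟩ := aut_of_flow hF
    refine ⟨f, fun i v => h1 i (v 0) (v 1), fun _ => ?_⟩
    have h3 := h2 (idx pH (Nat.pair 0 0))
    rw [el_idx (valid_base _ 0)] at h3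
    unfold sh at h3
    rw [Nat.unpair_pair, Nat.zero_xor, ht] at h3
    show f (idx pH (Nat.pair 0 0)) = _
    rw [← h3, idx_el]

/-- the orbits of `M0` are not hyperarithmetic -/
theorem not_delta_orbit :
    ¬ Delta11 fun q : ℕ × ℕ => Orbit (toS M0) 1 (fun _ => q.1) (fun _ => q.2) := by
  intro h
  apply not_delta_XA
  have h1 : Delta11 fun u : ℕ => 1 ≤ u ∧ pH u = 0 :=
    Delta11.of_computable (p_and (p_le (c_const 1) c_id) (p_eq c_pH (c_const 0)))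
  have h2 : Delta11 fun u : ℕ => Orbit (toS M0) 1 (fun _ => idx pH (Nat.pair 0 0))
      (fun _ => idx pH (Nat.pair 0 (2 ^ u))) :=
    h.comp (f := fun u : ℕ => (idx pH (Nat.pair 0 0), idx pH (Nat.pair 0 (2 ^ u))))
      (c_pair (c_const _) ((c_idx c_pH).comp (c_npair (c_const 0) (c_pow c_id))))
  refine (h1.and h2).of_iff fun u => ?_
  constructor
  · rintro ⟨t, hF, ht⟩
    have h3 := hF.child 0 u (by rw [ht, Nat.testBit_two_pow]; simp)
    exact ⟨h3, (orbit_iff_XA h3.1 h3.2).2 ⟨t, hF, ht⟩⟩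
  · rintro ⟨h3, h4⟩
    exact (orbit_iff_XA h3.1 h3.2).1 h4

theorem m0_high : HighRank (toS M0) := fun h => not_delta_orbit (delta_orbit m0_comp h)

theorem m0_computable : IsComputable (toS M0) := by
  have hM : ComputablePred fun q : ℕ × ℕ × ℕ × ℕ => M0 q.2.1 q.2.2.1 q.2.2.2 :=
    computablePred_comp (P := fun q : ℕ × ℕ × ℕ => M0 q.1 q.2.1 q.2.2) m0_comp (c_snd c_id)
  obtain ⟨g, _, hg⟩ := exists_idx (β := ℕ) (M := fun _ => M0) hM
  exact ⟨g 0, hg 0⟩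

/-- the class of the computable copies of `M0` -/
def K0 : Set (Struct ar2) := {B | IsComputable B ∧ Iso (toS M0) B}

theorem idx_k0 (e : ℕ) : IndexSet K0 e ↔ CI M0 e := by
  constructor
  · rintro ⟨A, ⟨_, h1⟩, he⟩
    obtain ⟨h2, h3⟩ := eq_of_index he
    rw [h3, iso_toS] at h1
    obtain ⟨f, hf⟩ := h1
    obtain ⟨h, h4, h5⟩ := m0_cc (comp_SI h2) hf
    exact ⟨h2, h, h4, h5⟩
  · rintro ⟨h1, f, h2, _⟩
    exact ⟨toS (SI e), ⟨⟨e, idx_of h1⟩, iso_toS.2 ⟨f, h2⟩⟩, idx_of h1⟩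

theorem k0_hyp : HypClass K0 := by
  refine ⟨⟨fun B hB => hB.1, ?_⟩, (delta_CI m0_comp).of_iff idx_k0⟩
  rintro A ⟨_, hA⟩ B hB hAB
  exact ⟨hB, hA.trans hAB⟩

end Pool.Agent.Y542
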