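import Mathlib
import Pool.Agent.Y542.ChiCode
import Pool.Agent.Y542.High

set_option autoImplicit false
set_option maxHeartbeats 400000

namespace Pool.Agent.Y542

open Encodable Denumerable Nat.Partrec Pool.Agent.Helper941 Pool.Agent.Helper941.IsoProb
open Pool.Agent.Helper941.Zeta Pool.Agent.Helper941.Hyp Pool.Agent.Helper941.Dim

theorem toS_inj {A B : Str} (h : toS A = toS B) : A = B := by
  funext i x y
  exact congrFun (congrFun h i) ![x, y]

theorem exists_index {B : Str} (hB : IsComp B) : ∃ m, Idx m ∧ SI m = B := by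
  have hM : ComputablePred fun q : ℕ × ℕ × ℕ × ℕ => B q.2.1 q.2.2.1 q.2.2.2 :=
    computablePred_comp (P := fun q : ℕ × ℕ × ℕ => B q.1 q.2.1 q.2.2) hB (c_snd c_id)
  obtain ⟨g, _, hg⟩ := exists_idx (β := ℕ) (M := fun _ => B) hM
  obtain ⟨h1, h2⟩ := eq_of_index (hg 0)
  exact ⟨g 0, h1, (toS_inj h2).symm⟩

/-- tuples satisfying the same computable infinitary formulas are automorphic -/
theorem orbit_of_formulas {B : Str} (hB : IsComp B) {n : ℕ} {a b : Fin n → ℕ}
    (h : ∀ φ : Fml n, CompFml φ → Sat Set.univ (toS B) φ a → Sat Set.univ (toS B) φ b) :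
    Orbit (toS B) n a b := by
  by_contra hc
  obtain ⟨m, hm, rfl⟩ := exists_index hB
  obtain ⟨e, he, h1⟩ := exists_tree hB (P := fun x => x = m) (p0 := prs n a b)
    (Sigma11.of_computable (p_eq c_id (c_const m))) (by
      rintro _ rfl ⟨f, hf, h2⟩
      refine hc ⟨f, fun i v => hf i (v 0) (v 1), fun k => ?_⟩
      exact h2 (a k, b k) (by unfold prs; rw [List.mem_ofFn]; exact ⟨k, rfl⟩))
  refine h1 m rfl _ (pf_chi (SI m) (SI m) e) ⟨n, a, b, acc_of he, rfl, ?_⟩
  exact h _ (compFml_chi hB e [] (acc_of he) n a) (chi_self (SI m) e [] (acc_of he) n a)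

/-- structures of computable rank have `Δ¹₁` orbits -/
theorem delta_of_rank {B : Str} (hB : IsComp B) {α : Ordinal.{0}} (hα : IsCompOrdinal α)
    (h : RankProp (toS B) α) :
    Delta11 fun q : ℕ × ℕ => Orbit (toS B) 1 (fun _ => q.1) (fun _ => q.2) := by
  obtain ⟨R, hR, hwo, hle⟩ := hα
  have h1 : Delta11 fun q : ℕ × ℕ => BL B (Ordinal.type R) [q] :=
    (delta_BL hR hB).comp (f := fun q : ℕ × ℕ => [q])
      (Computable.list_cons.comp c_id (c_const []))
  refine h1.of_iff fun q => ?_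
  have h2 : BL B (Ordinal.type R) [q] ↔
      BF (toS B) (Ordinal.type R) 1 (fun _ => q.1) (fun _ => q.2) := by
    rw [← bl_prs]
    rfl
  rw [h2]
  refine ⟨fun h3 => h3.bf _, fun h3 => ?_⟩
  refine orbit_of_formulas hB (h 1 _ _ fun φ _ hl hs => ?_)
  exact (sat_of_bf φ false α _ _ (h3.mono hle) hl).1 hs

theorem m0_noncomp : NoncompRank (toS M0) := fun _ hα h =>
  not_delta_orbit (delta_of_rank m0_comp hα h)

/-- the sentence -/
theorem exists_phi0 : ∃ φ : Fml 0, CompFml φ ∧ Sat Set.univ (toS M0) φ Fin.elim0 ∧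
    ∀ B : Str, IsComp B → Sat Set.univ (toS B) φ Fin.elim0 → ∃ f : ℕ ≃ ℕ, IsIso M0 B f := by
  have hP : Sigma11 fun m => Idx m ∧ ¬ CI M0 m :=
    (delta_Idx.and (delta_CI m0_comp).not).1
  obtain ⟨e, he, h1⟩ := exists_tree m0_comp hP (p0 := []) (by
    rintro m ⟨h2, h3⟩ ⟨f, hf, _⟩
    obtain ⟨g, hg, hc⟩ := m0_cc (comp_SI h2) hf
    exact h3 ⟨h2, g, hg, hc⟩)
  refine ⟨chi M0 e [] (acc_of he) 0 Fin.elim0, compFml_chi m0_comp e [] (acc_of he) 0 Fin.elim0,
    chi_self M0 e [] (acc_of he) 0 Fin.elim0, fun B hB hs => ?_⟩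
  obtain ⟨m, hm, rfl⟩ := exists_index hB
  by_cases hc : CI M0 m
  · obtain ⟨_, f, hf, _⟩ := hc
    exact ⟨f, hf⟩
  · exact (h1 m ⟨hm, hc⟩ _ (pf_chi M0 (SI m) e)
      ⟨0, Fin.elim0, Fin.elim0, acc_of he, rfl, hs⟩).elim

/-! ### infinite universes -/

/-- there are infinitely many elements -/
def Finf : Fml 0 := Fml.conj 0 (fun i => i) fun i => Fml.disj (0 + i) (fun _ => 1) fun _ =>
  Fml.qf (0 + i + 1) [(List.range i).map fun j => (false, 0, [j, i])]

theorem comp_Finf : CompFml Finf := by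
  have h1 : Computable fun i : ℕ => (List.range i).map fun j => (false, 0, [j, i]) := by
    refine c_tab (f := fun i : ℕ => i) (g := fun i j => (false, 0, [j, i])) c_id ?_
    exact c_pair (c_const false) (c_pair (c_const 0) (Computable.list_cons.comp (c_snd c_id)
      (Computable.list_cons.comp (c_fst c_id) (c_const []))))
  have h2 : Computable fun i : ℕ => Nat.pair i (Nat.pair 1 (encode (Code.const (Nat.pair 1
      (Nat.pair 0 (encode [(List.range i).map fun j => (false, 0, [j, i])])))))) := by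
    refine c_npair c_id (c_npair (c_const 1) (Computable.encode.comp
      (Code.primrec_const.to_comp.comp (c_npair (c_const 1) (c_npair (c_const 0)
      (Computable.encode.comp (Computable.list_cons.comp h1 (c_const []))))))))
  obtain ⟨g, hg⟩ := Code.exists_code.1 (Partrec.nat_iff.1 h2.partrec)
  refine ⟨Nat.pair 2 (encode g), ?_⟩
  refine isCode_conj (n := 0) (f := fun i => ⟨i, Fml.disj (0 + i) (fun _ => 1) fun _ =>
    Fml.qf (0 + i + 1) [(List.range i).map fun j => (false, 0, [j, i])]⟩) rfl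
    (fun i => by rw [hg]; rfl) fun i => ⟨_, rfl, ?_⟩
  refine isCode_disj (n := 0 + i) (f := fun _ => ⟨1, Fml.qf (0 + i + 1)
    [(List.range i).map fun j => (false, 0, [j, i])]⟩) rfl (fun j => Code.eval_const _ _)
    fun j => ⟨_, rfl, isCode_qf _⟩

theorem app_lt {i : ℕ} (b : Fin i → ℕ) (c : Fin 1 → ℕ) (x : Fin (0 + i + 1)) (j : Fin i)
    (hx : (x : ℕ) = j) : Fin.append (Fin.append Fin.elim0 b) c x = b j := by
  have : x = Fin.castAdd 1 (Fin.natAdd 0 j) := Fin.ext (by simp [hx])
  rw [this, Fin.append_left, Fin.append_right]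

theorem app_last {i : ℕ} (b : Fin i → ℕ) (c : Fin 1 → ℕ) (x : Fin (0 + i + 1))
    (hx : (x : ℕ) = i) :
    Fin.append (Fin.append (Fin.elim0 : Fin 0 → ℕ) b) c x = c 0 := by
  have : x = Fin.natAdd (0 + i) (0 : Fin 1) := Fin.ext (by simp [hx])
  rw [this, Fin.append_right]

theorem sat_Finf {U : Set ℕ} {B : Struct ar2} : Sat U B Finf Fin.elim0 ↔
    ∀ (i : ℕ) (b : Fin i → ℕ), (∀ j, b j ∈ U) → ∃ c ∈ U, ∀ j, b j ≠ c := by
  unfold Finf
  rw [sat_conj]
  refine forall_congr' fun i => forall_congr' fun b => imp_congr_right fun _ => ?_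
  rw [sat_disj]
  constructor
  · rintro ⟨_, c, hc, hs⟩
    refine ⟨c 0, hc 0, fun j hj => ?_⟩
    rw [Sat] at hs
    obtain ⟨C, hC, h1⟩ := hs
    rw [List.mem_singleton] at hC
    subst hC
    have h2 := h1 (false, 0, [(j : ℕ), i]) (by
      rw [List.mem_map]; exact ⟨j, List.mem_range.2 j.2, rfl⟩)
    rcases h2 with ⟨_, x, y, h3, h4⟩ | ⟨i, h3, _⟩
    · have h3 : [(j : ℕ), i] = [(x : ℕ), (y : ℕ)] := h3
      simp only [List.cons.injEq, and_true] at h3
      rw [app_lt b c x j h3.1.symm, app_last b c y h3.2.symm] at h4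
      simp [hj] at h4
    · simp at h3
  · rintro ⟨c, hc, h1⟩
    refine ⟨0, fun _ => c, fun _ => hc, ?_⟩
    rw [Sat]
    refine ⟨_, List.mem_singleton.2 rfl, fun l hl => ?_⟩
    rw [List.mem_map] at hl
    obtain ⟨j, hj, rfl⟩ := hl
    rw [List.mem_range] at hj
    refine Or.inl ⟨rfl, ⟨j, by omega⟩, ⟨i, by omega⟩, rfl, ?_⟩
    rw [app_lt b _ _ ⟨j, hj⟩ rfl, app_last b _ _ rfl]
    simp [h1 ⟨j, hj⟩]

theorem infinite_of_Finf {U : Set ℕ} {B : Struct ar2} (h : Sat U B Finf Fin.elim0) :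
    U.Infinite := by
  rw [sat_Finf] at h
  intro hU
  have : Finite U := hU
  obtain ⟨n, ⟨e⟩⟩ := Finite.exists_equiv_fin U
  obtain ⟨c, hc, h1⟩ := h n (fun j => (e.symm j : ℕ)) fun j => (e.symm j).2
  exact h1 (e ⟨c, hc⟩) (by simp)

theorem Finf_of_univ {B : Struct ar2} : Sat Set.univ B Finf Fin.elim0 := by
  rw [sat_Finf]
  intro i b _
  refine ⟨(∑ j, b j) + 1, Set.mem_univ _, fun j => ?_⟩
  have : b j ≤ ∑ j, b j := Finset.single_le_sum (fun _ _ => Nat.zero_le _) (Finset.mem_univ j)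
  omega

/-- conjunction of two sentences -/
def Fand (φ ψ : Fml 0) : Fml 0 := Fml.conj 0 (fun _ => 0) fun i => if i = 0 then φ else ψ

theorem comp_Fand {φ ψ : Fml 0} (h1 : CompFml φ) (h2 : CompFml ψ) : CompFml (Fand φ ψ) := by
  obtain ⟨c, hc⟩ := h1
  obtain ⟨d, hd⟩ := h2
  have h3 : Computable fun i : ℕ => Nat.pair 0 (if i = 0 then c else d) :=
    c_npair (c_const 0) (c_ite (p_eq c_id (c_const 0)) (c_const c) (c_const d))
  obtain ⟨g, hg⟩ := Code.exists_code.1 (Partrec.nat_iff.1 h3.partrec)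
  refine ⟨Nat.pair 2 (encode g), ?_⟩
  refine isCode_conj (n := 0) (f := fun i => ⟨0, if i = 0 then φ else ψ⟩) rfl
    (fun i => by rw [hg]; rfl) fun i => ⟨_, rfl, ?_⟩
  by_cases hi : i = 0
  · simp only [hi, if_true]
    exact hc
  · simp only [hi, if_false]
    exact hd

theorem sat_Fand {U : Set ℕ} {B : Struct ar2} {φ ψ : Fml 0} :
    Sat U B (Fand φ ψ) Fin.elim0 ↔ Sat U B φ Fin.elim0 ∧ Sat U B ψ Fin.elim0 := by
  unfold Fand
  rw [sat_conj]
  constructor
  · intro h
    have h0 := h 0 Fin.elim0 fun j => j.elim0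
    have h1 := h 1 Fin.elim0 fun j => j.elim0
    rw [append_zero] at h0 h1
    exact ⟨h0, h1⟩
  · rintro ⟨h0, h1⟩ i c _
    have h2 : (Fin.append Fin.elim0 c : Fin 0 → ℕ) = Fin.elim0 := funext fun j => Fin.elim0 j
    have h3 : Sat U B (if i = 0 then φ else ψ) (Fin.append Fin.elim0 c : Fin 0 → ℕ) := by
      rw [h2]
      by_cases hi : i = 0
      · simp only [hi, if_true]
        exact h0
      · simp only [hi, if_false]
        exact h1
    exact h3

theorem append_comp {n m : ℕ} (ν : ℕ → ℕ) (a : Fin n → ℕ) (b : Fin m → ℕ) :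
    Fin.append (fun i => ν (a i)) (fun i => ν (b i)) = fun i => ν (Fin.append a b i) := by
  funext i
  induction i using Fin.addCases with
  | left i => simp
  | right i => simp

theorem sat_transfer {U : Set ℕ} {B : Struct ar2} {ν : ℕ → ℕ} (hν : Function.Injective ν)
    (hr : Set.range ν = U) {n : ℕ} (φ : Fml n) : ∀ a : Fin n → ℕ,
    Sat Set.univ (fun i v => B i fun k => ν (v k) : Struct ar2) φ a ↔
      Sat U B φ fun i => ν (a i) := by
  induction φ with
  | qf n θ =>
    intro a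
    rw [Sat, Sat]
    refine exists_congr fun C => and_congr_right fun _ => forall_congr' fun l =>
      imp_congr_right fun _ => ?_
    unfold LitTrue
    simp only [hν.eq_iff]
  | disj n k φ ih =>
    intro a
    rw [sat_disj, sat_disj]
    refine exists_congr fun i => ?_
    constructor
    · rintro ⟨b, _, hb⟩
      refine ⟨fun j => ν (b j), fun j => by rw [← hr]; exact ⟨_, rfl⟩, ?_⟩
      rw [append_comp]
      exact (ih i _).1 hb
    · rintro ⟨c, hc, hs⟩
      have h1 : ∀ j, ∃ x, ν x = c j := fun j => by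
        have := hc j
        rw [← hr] at this
        exact this
      choose b hb using h1
      refine ⟨b, fun _ => Set.mem_univ _, (ih i _).2 ?_⟩
      rw [← append_comp]
      simp only [hb]
      exact hs
  | conj n k φ ih =>
    intro a
    rw [sat_conj, sat_conj]
    refine forall_congr' fun i => ?_
    constructor
    · intro h c hc
      have h1 : ∀ j, ∃ x, ν x = c j := fun j => by
        have := hc j
        rw [← hr] at this
        exact this
      choose b hb using h1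
      have h2 := (ih i _).1 (h b fun _ => Set.mem_univ _)
      rw [← append_comp] at h2
      simp only [hb] at h2
      exact h2
    · intro h b _
      refine (ih i _).2 ?_
      rw [← append_comp]
      exact h _ fun j => by rw [← hr]; exact ⟨_, rfl⟩

/-- enumeration of infinite computable sets -/
theorem exists_enum {U : Set ℕ} (hU : ComputablePred fun x => x ∈ U) (hi : U.Infinite) :
    ∃ ν : ℕ → ℕ, Computable ν ∧ Function.Injective ν ∧ Set.range ν = U := by
  have hex : ∀ p : ℕ, ∃ m, p ≤ m ∧ m ∈ U := fun p => by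
    obtain ⟨m, hm, h⟩ := hi.exists_gt p
    exact ⟨m, h.le, hm⟩
  let g : ℕ → ℕ := fun p => sInf {m | p ≤ m ∧ m ∈ U}
  have hg : Computable g := by
    refine c_least (P := fun p m => p ≤ m ∧ m ∈ U) ?_ hex
    exact p_and (p_le (c_fst c_id) (c_snd c_id)) (computablePred_comp hU (c_snd c_id))
  have hg1 : ∀ p, p ≤ g p ∧ g p ∈ U := fun p => Nat.sInf_mem (s := {m | p ≤ m ∧ m ∈ U}) (hex p)
  have hg2 : ∀ p m, p ≤ m → m ∈ U → g p ≤ m := fun p m h1 h2 => Nat.sInf_le ⟨h1, h2⟩
  let ν : ℕ → ℕ := fun n => Nat.rec (g 0) (fun _ r => g (r + 1)) n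
  have hν0 : ν 0 = g 0 := rfl
  have hν1 : ∀ n, ν (n + 1) = g (ν n + 1) := fun _ => rfl
  have hm : StrictMono ν := strictMono_nat_of_lt_succ fun n => by
    rw [hν1]
    have := (hg1 (ν n + 1)).1
    omega
  refine ⟨ν, ?_, hm.injective, ?_⟩
  · exact Computable.nat_rec (f := fun n : ℕ => n) (g := fun _ => g 0)
      (h := fun _ (q : ℕ × ℕ) => g (q.2 + 1)) c_id (c_const _)
      (hg.comp (c_succ (c_snd (c_snd c_id))))
  · apply Set.eq_of_subset_of_subset
    · rintro _ ⟨n, rfl⟩
      cases n with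
      | zero => exact (hg1 0).2
      | succ n => exact (hg1 _).2
    · intro x hx
      have h1 : (sInf {n | x ≤ ν n}) ∈ {n | x ≤ ν n} := Nat.sInf_mem ⟨x, hm.le_apply⟩
      have h2 : x ≤ ν (sInf {n | x ≤ ν n}) := h1
      have h3 : ∀ m < sInf {n | x ≤ ν n}, ¬ x ≤ ν m := fun m hm h4 => by
        have := Nat.sInf_le (s := {n | x ≤ ν n}) h4
        omega
      refine ⟨sInf {n | x ≤ ν n}, le_antisymm ?_ h2⟩
      clear h1
      generalize sInf {n | x ≤ ν n} = n at h2 h3
      cases n with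
      | zero => exact hg2 0 x (Nat.zero_le _) hx
      | succ n =>
        have h4 := h3 n (Nat.lt_succ_self n)
        rw [hν1]
        exact hg2 _ x (by omega) hx

theorem main : ∃ A : Struct ar2, CompOn Set.univ A ∧ NoncompRank A ∧ ∃ φ : Fml 0, CompFml φ ∧
    Sat Set.univ A φ Fin.elim0 ∧
    ∀ (U : Set ℕ) (B : Struct ar2), CompOn U B → Sat U B φ Fin.elim0 → IsoOn A U B := by
  obtain ⟨φ, h1, h2, h3⟩ := exists_phi0
  refine ⟨toS M0, ⟨?_, ?_⟩, m0_noncomp, Fand φ Finf, comp_Fand h1 comp_Finf,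
    sat_Fand.2 ⟨h2, Finf_of_univ⟩, fun U B hB hs => ?_⟩
  · exact (p_eq (c_const 0) (c_const 0)).of_eq fun x => by simp
  · have hl : Computable fun p : ℕ => ofNat (List ℕ) p.unpair.2 :=
      (Computable.ofNat (List ℕ)).comp (c_up2 c_id)
    refine (p_and (p_eq (Computable.list_length.comp hl) (c_const 2))
      (computablePred_comp (P := fun q : ℕ × ℕ × ℕ => M0 q.1 q.2.1 q.2.2) m0_comp
        (c_pair (c_up1 c_id)
        (c_pair (c_gt hl (c_const 0)) (c_gt hl (c_const 1)))))).of_eq fun p => ?_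
    rw [← diag_iff M0 p]
    unfold Diag
    simp
  · rw [sat_Fand] at hs
    have hi := infinite_of_Finf hs.2
    obtain ⟨ν, hc, hν, hr⟩ := exists_enum hB.1 hi
    have hmem : ∀ x, ν x ∈ U := fun x => by rw [← hr]; exact ⟨x, rfl⟩
    have h4 := (sat_transfer (B := B) hν hr φ Fin.elim0).2 (by
      have : (fun i : Fin 0 => ν (Fin.elim0 i)) = Fin.elim0 := Subsingleton.elim _ _
      rw [this]
      exact hs.1)
    have h5 : (fun i v => B i fun k => ν (v k) : Struct ar2) =
        toS (fun i x y => B i ![ν x, ν y]) := by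
      funext i v
      show B i (fun k => ν (v k)) = B i ![ν (v 0), ν (v 1)]
      congr 1
      funext k
      match k with
      | 0 => rfl
      | 1 => rfl
    rw [h5] at h4
    obtain ⟨f, hf⟩ := h3 _ (by
      have h6 : Computable fun q : ℕ × ℕ × ℕ => Nat.pair q.1 (encode [ν q.2.1, ν q.2.2]) :=
        c_npair (c_fst c_id) (Computable.encode.comp (Computable.list_cons.comp
          (hc.comp (c_fst (c_snd c_id))) (Computable.list_cons.comp
          (hc.comp (c_snd (c_snd c_id))) (c_const []))))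
      refine (computablePred_comp hB.2 h6).of_eq fun q => ?_
      constructor
      · rintro ⟨i, v, _, h7, h8⟩
        obtain ⟨rfl, h9⟩ := Nat.pair_eq_pair.1 h7
        have h10 : [ν q.2.1, ν q.2.2] = [v 0, v 1] := Encodable.encode_injective h9
        simp only [List.cons.injEq, and_true] at h10
        show B q.1 ![ν q.2.1, ν q.2.2]
        have h11 : ![ν q.2.1, ν q.2.2] = v := by
          funext k
          match k with
          | 0 => exact h10.1
          | 1 => exact h10.2
        rw [h11]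
        exact h8
      · intro h7
        refine ⟨q.1, ![ν q.2.1, ν q.2.2], fun k => ?_, rfl, h7⟩
        match k with
        | 0 => exact hmem _
        | 1 => exact hmem _) h4
    let E : ℕ ≃ U := Equiv.ofBijective (fun n => (⟨ν n, hmem n⟩ : U)) ⟨fun x y h => by
      exact hν (congrArg Subtype.val h), fun x => by
      have h12 : (x : ℕ) ∈ Set.range ν := hr.symm ▸ x.2
      obtain ⟨n, hn⟩ := h12
      exact ⟨n, Subtype.ext hn⟩⟩
    refine ⟨f.trans E, fun i v => ?_⟩
    refine (hf i (v 0) (v 1)).trans ?_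
    show B i ![ν (f (v 0)), ν (f (v 1))] ↔ B i fun k => ν (f (v k))
    have h11 : ![ν (f (v 0)), ν (f (v 1))] = fun k => ν (f (v k)) := by
      funext k
      match k with
      | 0 => rfl
      | 1 => rfl
    rw [h11]

end Pool.Agent.Y542
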