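import Mathlib
import Pool.Agent.TH750.Scott

/-!
Finitely generated commutative rings have d-`Σ_2` Scott sentences.
-/

set_option autoImplicit false

namespace Pool.Agent.Y542

open FirstOrder FirstOrder.Language FirstOrder.Ring Pool.Agent.TH750.SC

/-- a surjective endomorphism of a noetherian ring is injective -/
theorem injective_of_surjective_endo {R : Type*} [CommRing R] [IsNoetherianRing R]
    (f : R →+* R) (hf : Function.Surjective f) : Function.Injective f := by
  classical
  let K : ℕ →o Ideal R :=
    { toFun := fun n => RingHom.ker (f ^ n)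
      monotone' := by
        refine monotone_nat_of_le_succ fun n x hx => ?_
        rw [RingHom.mem_ker] at hx ⊢
        rw [pow_succ', RingHom.mul_def, RingHom.comp_apply, hx, map_zero] }
  obtain ⟨n, hn⟩ := monotone_stabilizes_iff_noetherian.2 (inferInstance : IsNoetherian R R) K
  have hsur : ∀ m : ℕ, Function.Surjective (f ^ m : R →+* R) := by
    intro m
    induction m with
    | zero => intro y; exact ⟨y, rfl⟩
    | succ m ih =>
      intro y
      obtain ⟨z, rfl⟩ := ih y
      obtain ⟨w, rfl⟩ := hf z
      exact ⟨w, by rw [pow_succ, RingHom.mul_def, RingHom.comp_apply]⟩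
  rw [injective_iff_map_eq_zero]
  intro x hx
  obtain ⟨y, rfl⟩ := hsur n x
  have h1 : y ∈ K (n + 1) := by
    change y ∈ RingHom.ker (f ^ (n + 1))
    rw [RingHom.mem_ker, pow_succ', RingHom.mul_def, RingHom.comp_apply]
    exact hx
  rw [← hn (n + 1) (Nat.le_succ n)] at h1
  exact h1

section
variable {R : Type} [CommRing R] [CompatibleRing R]

/-- values of terms lie in the subring generated -/
theorem term_mem_range {n : ℕ} (a : Fin n → R) (t : Language.ring.Term (Fin n)) :
    t.realize a ∈ (FreeCommRing.lift a : FreeCommRing (Fin n) →+* R).range := by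
  induction t with
  | var i => exact ⟨FreeCommRing.of i, by simp⟩
  | func f ts ih =>
    cases f with
    | add =>
      have := (FreeCommRing.lift a : FreeCommRing (Fin n) →+* R).range.add_mem (ih 0) (ih 1)
      have h2 := CompatibleRing.funMap_add (R := R) (fun i => (ts i).realize a)
      rw [← h2] at this
      exact this
    | mul =>
      have := (FreeCommRing.lift a : FreeCommRing (Fin n) →+* R).range.mul_mem (ih 0) (ih 1)
      have h2 := CompatibleRing.funMap_mul (R := R) (fun i => (ts i).realize a)
      rw [← h2] at this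
      exact this
    | neg =>
      have := (FreeCommRing.lift a : FreeCommRing (Fin n) →+* R).range.neg_mem (ih 0)
      have h2 := CompatibleRing.funMap_neg (R := R) (fun i => (ts i).realize a)
      rw [← h2] at this
      exact this
    | zero =>
      have := (FreeCommRing.lift a : FreeCommRing (Fin n) →+* R).range.zero_mem
      have h2 := CompatibleRing.funMap_zero (R := R) (fun i => (ts i).realize a)
      rw [← h2] at this
      exact this
    | one =>
      have := (FreeCommRing.lift a : FreeCommRing (Fin n) →+* R).range.one_mem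
      have h2 := CompatibleRing.funMap_one (R := R) (fun i => (ts i).realize a)
      rw [← h2] at this
      exact this

/-- a finitely generated commutative ring, as a structure, is generated by a finite tuple -/
theorem exists_gen (h : FirstOrder.Language.Structure.FG FirstOrder.Language.ring R) : ∃ (n : ℕ) (a : Fin n → R),
    ∀ y : R, ∃ t : Language.ring.Term (Fin n), t.realize a = y := by
  obtain ⟨n, a, ha⟩ := Substructure.fg_iff_exists_fin_generating_family.1 (Structure.fg_def.1 h)
  refine ⟨n, a, fun y => ?_⟩
  have hy : y ∈ Substructure.closure Language.ring (Set.range a) := by rw [ha]; trivial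
  obtain ⟨t, ht⟩ := Substructure.mem_closure_iff_exists_term.1 hy
  choose g hg using fun x : Set.range a => x.2
  refine ⟨t.relabel g, ?_⟩
  rw [Term.realize_relabel, ← ht]
  congr 1
  funext x
  exact hg x

/-- finite conjunctions of quantifier-free formulas -/
theorem exists_conj {L : FirstOrder.Language.{0, 0}} {M : Type} [L.Structure M] {m : ℕ}
    (l : List {φ : L.Formula (Fin m) // BoundedFormula.IsQF φ}) :
    ∃ ψ : L.Formula (Fin m), BoundedFormula.IsQF ψ ∧
      ∀ v : Fin m → M, ψ.Realize v ↔ ∀ φ ∈ l, Formula.Realize φ.1 v := by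
  induction l with
  | nil => exact ⟨⊤, BoundedFormula.IsQF.top, fun v => by simp⟩
  | cons φ l ih =>
    obtain ⟨ψ, h1, h2⟩ := ih
    refine ⟨φ.1 ⊓ ψ, φ.2.inf h1, fun v => ?_⟩
    rw [Formula.realize_inf, h2]
    simp

theorem scott_of_fg (h : FirstOrder.Language.Structure.FG FirstOrder.Language.ring R) :
    HasDSigma2Scott Language.ring R := by
  classical
  obtain ⟨n, a, ha⟩ := exists_gen h
  refine hasDSigma2Scott_of_generates a ha fun x hx => ?_
  let ev : (Fin n → R) → FreeCommRing (Fin n) →+* R := fun v => FreeCommRing.lift v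
  have hsurj : Function.Surjective (ev a) := by
    intro y
    obtain ⟨t, rfl⟩ := ha y
    exact term_mem_range a t
  have hN : IsNoetherianRing (FreeCommRing (Fin n)) :=
    isNoetherianRing_of_ringEquiv _ (freeCommRingEquivMvPolynomialInt (Fin n)).symm
  have hNR : IsNoetherianRing R := isNoetherianRing_of_surjective _ _ (ev a) hsurj
  -- generators of the relations
  obtain ⟨S, hS⟩ := (isNoetherianRing_iff_ideal_fg _).1 hN (RingHom.ker (ev a))
  -- polynomials giving `x`
  choose p hp using fun j => hsurj (x j)
  -- the quantifier-free formula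
  let tm : FreeCommRing (Fin n) → Language.ring.Term (Fin (n + n)) :=
    fun q => (termOfFreeCommRing q).relabel (Fin.natAdd n)
  have htm : ∀ (q : FreeCommRing (Fin n)) (u w : Fin n → R),
      (tm q).realize (Fin.append u w) = ev w q := by
    intro q u w
    have h1 : (Fin.append u w) ∘ (Fin.natAdd n) = w := by
      funext i
      exact Fin.append_right _ _ i
    change ((termOfFreeCommRing q).relabel (Fin.natAdd n)).realize (Fin.append u w) = _
    rw [Term.realize_relabel, h1, realize_termOfFreeCommRing]
  obtain ⟨ψ, hψ, hψr⟩ := exists_conj (M := R)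
    ((S.toList.map fun q => (⟨Term.equal (tm q) 0,
        (BoundedFormula.IsAtomic.equal _ _).isQF⟩ :
          {φ : Language.ring.Formula (Fin (n + n)) // BoundedFormula.IsQF φ})) ++
      (List.finRange n).map fun j => (⟨Term.equal (Term.var (Fin.castAdd n j)) (tm (p j)),
        (BoundedFormula.IsAtomic.equal _ _).isQF⟩ :
          {φ : Language.ring.Formula (Fin (n + n)) // BoundedFormula.IsQF φ}))
  have hψv : ∀ u w : Fin n → R, ψ.Realize (Fin.append u w) ↔
      (∀ q ∈ S, ev w q = 0) ∧ ∀ j, u j = ev w (p j) := by
    intro u w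
    rw [hψr]
    simp only [List.mem_append, List.mem_map, Finset.mem_toList, List.mem_finRange, true_and]
    constructor
    · intro h1
      refine ⟨fun q hq => ?_, fun j => ?_⟩
      · have := h1 _ (Or.inl ⟨q, hq, rfl⟩)
        rw [Formula.realize_equal, htm, realize_zero] at this
        exact this
      · have := h1 _ (Or.inr ⟨j, rfl⟩)
        rw [Formula.realize_equal, htm, Term.realize_var, Fin.append_left] at this
        exact this
    · rintro ⟨h1, h2⟩ φ (⟨q, hq, rfl⟩ | ⟨j, rfl⟩)
      · rw [Formula.realize_equal, htm, realize_zero]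
        exact h1 q hq
      · rw [Formula.realize_equal, htm, Term.realize_var, Fin.append_left]
        exact h2 j
  -- the relations are satisfied by some `w` with `a = p(w)`
  obtain ⟨w, hw1, hw2⟩ : ∃ w : Fin n → R, (∀ q ∈ S, ev w q = 0) ∧ ∀ j, a j = ev w (p j) := by
    by_contra hc
    have h1 := hx n ψ.not hψ.not (fun w => by
      rw [Formula.realize_not, hψv]
      exact fun h2 => hc ⟨w, h2⟩) a
    rw [Formula.realize_not, hψv] at h1
    refine h1 ⟨fun q hq => ?_, fun j => (hp j).symm⟩
    have : q ∈ RingHom.ker (ev a) := by rw [← hS]; exact Ideal.subset_span hq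
    exact this
  -- the endomorphism
  have hker : ∀ q, ev a q = 0 → ev w q = 0 := by
    intro q hq
    have h1 : Ideal.span (S : Set (FreeCommRing (Fin n))) ≤ RingHom.ker (ev w) :=
      Ideal.span_le.2 fun q hq => hw1 q hq
    have h2 : q ∈ RingHom.ker (ev a) := hq
    rw [← hS] at h2
    exact h1 h2
  let ρ : R →+* R := (ev a).liftOfRightInverse (Function.surjInv hsurj)
    (Function.rightInverse_surjInv hsurj) ⟨ev w, fun q hq => hker q hq⟩
  have hρ : ∀ q, ρ (ev a q) = ev w q := fun q =>
    RingHom.liftOfRightInverse_comp_apply _ _ _ _ q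
  have hρx : ∀ j, ρ (x j) = a j := by
    intro j
    rw [← hp j, hρ, ← hw2]
  have hcomp : ∀ q, ρ (ev x q) = ev a q := by
    intro q
    have : ρ.comp (ev x) = ev a := by
      apply FreeCommRing.hom_ext
      intro j
      change ρ (FreeCommRing.lift x (FreeCommRing.of j)) = FreeCommRing.lift a (FreeCommRing.of j)
      rw [FreeCommRing.lift_of, FreeCommRing.lift_of, hρx]
    rw [← this]
    rfl
  have hinj : Function.Injective ρ := by
    refine injective_of_surjective_endo ρ fun y => ?_
    obtain ⟨q, rfl⟩ := hsurj y
    exact ⟨ev x q, hcomp q⟩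
  intro y
  obtain ⟨q, hq⟩ := hsurj (ρ y)
  refine ⟨termOfFreeCommRing q, ?_⟩
  rw [realize_termOfFreeCommRing]
  apply hinj
  rw [← hq]
  exact hcomp q

end

end Pool.Agent.Y542
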